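import Mathlib

/-! # Reduction modulo large primes of a finitely generated subring of a field of characteristic 0 -/

set_option autoImplicit false

namespace Pool.Agent.H70IC

open Polynomial

universe u

theorem not_isUnit_natCast_integralClosure (F : Type u) [Field F] [CharZero F] {p : ℕ}
    (hp : p.Prime) :
    ¬ IsUnit ((p : (integralClosure ℤ F).toSubring)) := by
  intro h
  obtain ⟨y, hy⟩ := isUnit_iff_exists_inv.1 h
  have h1 : (p : F) * (y : F) = 1 := by
    have := congrArg Subtype.val hy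
    simpa using this
  have hint : IsIntegral ℤ (y : F) := y.2
  have hp0 : (p : F) ≠ 0 := by exact_mod_cast hp.ne_zero
  have hy' : (y : F) = algebraMap ℚ F ((p : ℚ)⁻¹) := by
    rw [map_inv₀, map_natCast]
    field_simp
    linear_combination h1
  rw [hy'] at hint
  have h2 : IsIntegral ℤ ((p : ℚ)⁻¹) := by
    exact (isIntegral_algebraMap_iff (algebraMap ℚ F).injective).1 hint
  obtain ⟨z, hz⟩ := IsIntegrallyClosed.isIntegral_iff.1 h2
  have hz' : (z : ℚ) * (p : ℚ) = 1 := by
    have : (z : ℚ) = (p : ℚ)⁻¹ := by simpa using hz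
    rw [this]
    have : (p : ℚ) ≠ 0 := by exact_mod_cast hp.ne_zero
    field_simp
  have hz2 : z * (p : ℤ) = 1 := by exact_mod_cast hz'
  have := Int.isUnit_iff.1 (IsUnit.of_mul_eq_one_right z hz2)
  have := hp.two_le
  omega

theorem exists_valuationSubring (F : Type u) [Field F] [CharZero F] [Algebra.IsAlgebraic ℚ F]
    (T : Finset F) :
    ∃ N : ℕ, ∀ p : ℕ, p.Prime → N < p →
      ∃ B : ValuationSubring F, (∀ x ∈ T, x ∈ B) ∧ (p : F) ∈ B.nonunits := by
  classical
  have hx : ∀ x : F, ∃ n : ℤ, n ≠ 0 ∧ IsIntegral ℤ (n • x) := by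
    intro x
    have h1 : IsAlgebraic ℚ x := Algebra.IsAlgebraic.isAlgebraic x
    have h2 : IsAlgebraic ℤ x := (IsFractionRing.isAlgebraic_iff ℤ ℚ F).2 h1
    obtain ⟨y, hy, hy'⟩ := h2.exists_integral_multiple
    exact ⟨y, hy, hy'⟩
  choose n hn hn' using hx
  refine ⟨∑ x ∈ T, (n x).natAbs, fun p hp hNp => ?_⟩
  have hI : (Ideal.span {(p : (integralClosure ℤ F).toSubring)}) ≠ ⊤ := by
    intro h
    exact not_isUnit_natCast_integralClosure F hp (Ideal.span_singleton_eq_top.1 h)
  obtain ⟨B, hB, hBI⟩ := Ideal.image_subset_nonunits_valuationSubring _ hI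
  have hpB : (p : F) ∈ B.nonunits := by
    apply hBI
    exact ⟨_, Ideal.mem_span_singleton_self _, by simp⟩
  refine ⟨B, fun x hxT => ?_, hpB⟩
  have hle : (n x).natAbs ≤ ∑ x ∈ T, (n x).natAbs :=
    Finset.single_le_sum (f := fun x => (n x).natAbs) (fun _ _ => Nat.zero_le _) hxT
  have hpos : 0 < (n x).natAbs := Int.natAbs_pos.2 (hn x)
  have hcop : IsCoprime (n x) (p : ℤ) := by
    rw [Int.isCoprime_iff_gcd_eq_one, Int.gcd_comm]
    have : ¬ (p ∣ (n x).natAbs) := fun hdvd => by
      have := Nat.le_of_dvd hpos hdvd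
      omega
    have h3 := (Nat.Prime.coprime_iff_not_dvd hp).2 this
    simpa [Int.gcd, Nat.Coprime] using h3
  obtain ⟨a, b, hab⟩ := hcop
  -- `n x` is a unit of `B`
  have hnx : ((n x : F))⁻¹ ∈ B := by
    by_contra hcon
    have h4 : (n x : F) ∈ B.nonunits := by
      have hne : (n x : F) ≠ 0 := by exact_mod_cast hn x
      rw [ValuationSubring.mem_nonunits_iff_exists_mem_maximalIdeal]
      have hmem : (n x : F) ∈ B := by
        have := B.toSubring.zsmul_mem B.toSubring.one_mem (n x)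
        simpa using this
      refine ⟨hmem, ?_⟩
      rw [IsLocalRing.mem_maximalIdeal, mem_nonunits_iff]
      intro hu
      obtain ⟨w, hw⟩ := isUnit_iff_exists_inv.1 hu
      apply hcon
      have : (n x : F) * (w : F) = 1 := by
        have := congrArg Subtype.val hw
        simpa using this
      have h5 : ((n x : F))⁻¹ = (w : F) := by
        field_simp
        linear_combination -this
      rw [h5]
      exact w.2
    rw [ValuationSubring.mem_nonunits_iff_exists_mem_maximalIdeal] at h4 hpB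
    obtain ⟨m1, h5⟩ := h4
    obtain ⟨m2, h6⟩ := hpB
    have ha : (a : F) ∈ B := by
      have := B.toSubring.zsmul_mem B.toSubring.one_mem a
      simpa using this
    have hb : (b : F) ∈ B := by
      have := B.toSubring.zsmul_mem B.toSubring.one_mem b
      simpa using this
    have h7 : (⟨a, ha⟩ : B) * ⟨_, m1⟩ + (⟨b, hb⟩ : B) * ⟨_, m2⟩ ∈ IsLocalRing.maximalIdeal B :=
      Ideal.add_mem _ (Ideal.mul_mem_left _ _ h5) (Ideal.mul_mem_left _ _ h6)
    have h8 : (⟨a, ha⟩ : B) * ⟨_, m1⟩ + (⟨b, hb⟩ : B) * ⟨_, m2⟩ = 1 := by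
      apply Subtype.ext
      change (a : F) * (n x : F) + (b : F) * (p : F) = 1
      exact_mod_cast congrArg (Int.cast : ℤ → F) hab
    rw [h8] at h7
    exact (Ideal.ne_top_iff_one _).1 (IsLocalRing.maximalIdeal.isMaximal B).ne_top h7
  have hint : (n x) • x ∈ B := hB (show (n x) • x ∈ (integralClosure ℤ F).toSubring from hn' x)
  have hxeq : x = ((n x : F))⁻¹ * ((n x) • x) := by
    have hne : (n x : F) ≠ 0 := by exact_mod_cast hn x
    rw [zsmul_eq_mul]
    field_simp
  rw [hxeq]
  exact B.mul_mem _ _ hnx hint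

theorem finite_of_surjective_hom (S : Type u) [CommRing S] [Algebra ℚ S]
    [Algebra.FiniteType ℚ S] (F : Type u) [Field F] [CharZero F] (θ : S →+* F)
    (hθ : Function.Surjective θ) : Algebra.IsAlgebraic ℚ F := by
  have hftF : Algebra.FiniteType ℚ F :=
    Algebra.FiniteType.of_surjective (RingHom.toRatAlgHom θ) hθ
  have hfin : Module.Finite ℚ F := finite_of_finite_type_of_isJacobsonRing _ _
  infer_instance

theorem exists_hom_algebraic (S : Type u) [CommRing S] [Nontrivial S] [Algebra ℚ S]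
    [Algebra.FiniteType ℚ S] :
    ∃ (F : Type u) (_ : Field F) (_ : CharZero F), Algebra.IsAlgebraic ℚ F ∧
      Nonempty (S →+* F) := by
  obtain ⟨M, hM⟩ := Ideal.exists_maximal S
  let _ : Field (S ⧸ M) := Ideal.Quotient.field M
  have : CharZero (S ⧸ M) := algebraRat.charZero _
  refine ⟨S ⧸ M, inferInstance, this, ?_, ⟨Ideal.Quotient.mk M⟩⟩
  exact finite_of_surjective_hom S (S ⧸ M) (Ideal.Quotient.mk M) Ideal.Quotient.mk_surjective

/-- Reduction modulo all large primes. -/
theorem exists_hom_charP (K : Type u) [Field K] [CharZero K] (s : Finset K) :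
    ∃ N : ℕ, ∀ p : ℕ, p.Prime → N < p →
      ∃ (k : Type u) (_ : Field k) (_ : CharP k p),
        Nonempty ((Algebra.adjoin ℤ (s : Set K)) →+* k) := by
  classical
  have hft : Algebra.FiniteType ℚ (Algebra.adjoin ℚ (s : Set K)) := by
    rw [← Subalgebra.fg_iff_finiteType]
    exact ⟨s, rfl⟩
  obtain ⟨F, _, _, _, ⟨θ⟩⟩ := exists_hom_algebraic (Algebra.adjoin ℚ (s : Set K))
  -- the map from `ℤ[s]`
  have hsub : ∀ z : K, z ∈ Algebra.adjoin ℤ (s : Set K) → z ∈ Algebra.adjoin ℚ (s : Set K) := by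
    intro z hz
    induction hz using Algebra.adjoin_induction with
    | mem x hx => exact Algebra.subset_adjoin hx
    | algebraMap r =>
      rw [eq_intCast]
      exact intCast_mem _ r
    | add x y _ _ hx hy => exact Subalgebra.add_mem _ hx hy
    | mul x y _ _ hx hy => exact Subalgebra.mul_mem _ hx hy
  let ι : (Algebra.adjoin ℤ (s : Set K)) →+* (Algebra.adjoin ℚ (s : Set K)) :=
    { toFun := fun z => ⟨z.1, hsub z.1 z.2⟩
      map_one' := rfl
      map_mul' := fun _ _ => rfl
      map_zero' := rfl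
      map_add' := fun _ _ => rfl }
  let ψ : (Algebra.adjoin ℤ (s : Set K)) →+* F := θ.comp ι
  have hT : ∃ T : Finset F, ∀ x (hx : x ∈ s), ψ ⟨x, Algebra.subset_adjoin hx⟩ ∈ T := by
    refine ⟨s.attach.image (fun x => ψ (⟨x.1, Algebra.subset_adjoin (Finset.mem_coe.2 x.2)⟩ :
      Algebra.adjoin ℤ (s : Set K))), fun x hx => ?_⟩
    rw [Finset.mem_image]
    exact ⟨⟨x, hx⟩, Finset.mem_attach _ _, rfl⟩
  obtain ⟨T, hT⟩ := hT
  obtain ⟨N, hN⟩ := exists_valuationSubring F T
  refine ⟨N, fun p hp hNp => ?_⟩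
  obtain ⟨B, hB, hpB⟩ := hN p hp hNp
  have hrange : ∀ z : Algebra.adjoin ℤ (s : Set K), ψ z ∈ B := by
    rintro ⟨z, hz⟩
    induction hz using Algebra.adjoin_induction with
    | mem x hx => exact hB _ (hT x hx)
    | algebraMap r =>
      have : (⟨(algebraMap ℤ K) r, Subalgebra.algebraMap_mem _ r⟩ :
          Algebra.adjoin ℤ (s : Set K)) = (r : Algebra.adjoin ℤ (s : Set K)) := by
        apply Subtype.ext
        simp
      rw [this, map_intCast]
      exact intCast_mem _ r
    | add x y hx hy h1 h2 =>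
      have : (⟨x + y, Subalgebra.add_mem _ hx hy⟩ : Algebra.adjoin ℤ (s : Set K)) =
        ⟨x, hx⟩ + ⟨y, hy⟩ := rfl
      rw [this, map_add]
      exact B.add_mem _ _ h1 h2
    | mul x y hx hy h1 h2 =>
      have : (⟨x * y, Subalgebra.mul_mem _ hx hy⟩ : Algebra.adjoin ℤ (s : Set K)) =
        ⟨x, hx⟩ * ⟨y, hy⟩ := rfl
      rw [this, map_mul]
      exact B.mul_mem _ _ h1 h2
  let χ : (Algebra.adjoin ℤ (s : Set K)) →+* B :=
    { toFun := fun z => ⟨ψ z, hrange z⟩
      map_one' := Subtype.ext (map_one ψ)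
      map_mul' := fun x y => Subtype.ext (map_mul ψ x y)
      map_zero' := Subtype.ext (map_zero ψ)
      map_add' := fun x y => Subtype.ext (map_add ψ x y) }
  refine ⟨IsLocalRing.ResidueField B, inferInstance, ?_, ⟨(IsLocalRing.residue B).comp χ⟩⟩
  rw [ValuationSubring.mem_nonunits_iff_exists_mem_maximalIdeal] at hpB
  obtain ⟨m1, h1⟩ := hpB
  have h0 : ((p : ℕ) : IsLocalRing.ResidueField B) = 0 := by
    have h2 : ((p : ℕ) : B) = ⟨((p : ℕ) : F), m1⟩ := by
      apply Subtype.ext
      simp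
    have h3 : IsLocalRing.residue B (p : B) = 0 := by
      rw [IsLocalRing.residue_eq_zero_iff, h2]
      exact h1
    simpa using h3
  exact (CharP.charP_iff_prime_eq_zero hp).2 h0

end Pool.Agent.H70IC
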