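import Mathlib
import Pool.Agent.H70IC.Red

/-! # The functional `t^k ↦ k!` and the one-variable factorial theorem -/

set_option autoImplicit false

namespace Pool.Agent.H70IC

open Polynomial

universe u v

/-- The linear functional `X^k ↦ k!`. -/
noncomputable def Lf (R : Type*) [CommRing R] : R[X] →ₗ[R] R :=
  Polynomial.lsum (fun k => (k.factorial : R) • (LinearMap.id : R →ₗ[R] R))

theorem Lf_monomial {R : Type*} [CommRing R] (k : ℕ) (a : R) :
    Lf R (monomial k a) = (k.factorial : R) * a := by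
  simp [Lf, Polynomial.lsum]

theorem Lf_eq_sum {R : Type*} [CommRing R] (p : R[X]) (n : ℕ) (hn : p.natDegree < n) :
    Lf R p = ∑ i ∈ Finset.range n, (i.factorial : R) * p.coeff i := by
  conv_lhs => rw [p.as_sum_range' n hn]
  rw [map_sum]
  exact Finset.sum_congr rfl fun i _ => Lf_monomial i _

theorem Lf_map {R S : Type*} [CommRing R] [CommRing S] (φ : R →+* S) (p : R[X]) :
    Lf S (p.map φ) = φ (Lf R p) := by
  rw [Lf_eq_sum p (p.natDegree + 1) (Nat.lt_succ_self _),
    Lf_eq_sum (p.map φ) (p.natDegree + 1) (Nat.lt_succ_of_le natDegree_map_le), map_sum]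
  refine Finset.sum_congr rfl fun i _ => ?_
  rw [coeff_map, map_mul, map_natCast]

theorem Lf_C_mul {R : Type*} [CommRing R] (a : R) (p : R[X]) :
    Lf R (C a * p) = a * Lf R p := by
  rw [← smul_eq_C_mul, map_smul, smul_eq_mul]

theorem Lf_derivative {R : Type*} [CommRing R] (p : R[X]) :
    Lf R (derivative p) = Lf R p - p.coeff 0 := by
  induction p using Polynomial.induction_on' with
  | add p q hp hq => rw [derivative_add, map_add, map_add, hp, hq, coeff_add]; ring
  | monomial k a =>
    rw [derivative_monomial, Lf_monomial, Lf_monomial, coeff_monomial]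
    cases k with
    | zero => simp
    | succ k =>
      rw [if_neg (Nat.succ_ne_zero k), Nat.add_sub_cancel, Nat.factorial_succ]
      push_cast
      ring

theorem coeff_mul_X_pow_self {R : Type*} [CommRing R] (U : R[X]) (n : ℕ) :
    (U * X ^ n).coeff n = U.coeff 0 := by
  rw [coeff_mul_X_pow', if_pos le_rfl, Nat.sub_self]

theorem exists_lift {K : Type u} [Field K] (R₀ : Subalgebra ℤ K) (F : K[X])
    (h : ∀ i, F.coeff i ∈ R₀) : ∃ F₀ : R₀[X], F₀.map (algebraMap R₀ K) = F := by
  refine ⟨∑ i ∈ Finset.range (F.natDegree + 1), monomial i ⟨F.coeff i, h i⟩, ?_⟩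
  rw [Polynomial.map_sum]
  conv_rhs => rw [F.as_sum_range' (F.natDegree + 1) (Nat.lt_succ_self _)]
  refine Finset.sum_congr rfl fun i _ => ?_
  rw [map_monomial]
  rfl

theorem coeff_lift {K : Type u} [Field K] (R₀ : Subalgebra ℤ K) (F : K[X]) (F₀ : R₀[X])
    (h : F₀.map (algebraMap R₀ K) = F) (i : ℕ) : ((F₀.coeff i : R₀) : K) = F.coeff i := by
  rw [← h, coeff_map]
  rfl

theorem Lf_charP {k : Type u} [Field k] (p : ℕ) [CharP k p] (hp : p.Prime) (W : k[X]) :
    Lf k W = ∑ i ∈ Finset.range p, (i.factorial : k) * W.coeff i := by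
  rw [Lf_eq_sum W (max p (W.natDegree + 1)) (by omega)]
  symm
  apply Finset.sum_subset
  · intro i hi
    rw [Finset.mem_range] at hi ⊢
    omega
  · intro i _ hi
    rw [Finset.mem_range, not_lt] at hi
    have : ((i.factorial : ℕ) : k) = 0 := by
      rw [CharP.cast_eq_zero_iff k p]
      exact (hp.dvd_factorial).2 hi
    rw [this, zero_mul]

theorem factorial_ne_zero_charP {k : Type u} [Field k] (p : ℕ) [CharP k p] (hp : p.Prime) :
    (((p - 1).factorial : ℕ) : k) ≠ 0 := by
  rw [Ne, CharP.cast_eq_zero_iff k p, hp.dvd_factorial]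
  have := hp.two_le
  omega

/-- The one-variable factorial theorem: a polynomial over a field of characteristic `0` all of
whose positive powers are killed by `X^k ↦ k!` vanishes. -/
theorem factorial_field (K : Type u) [Field K] [CharZero K] (F : K[X])
    (h : ∀ m : ℕ, 1 ≤ m → Lf K (F ^ m) = 0) : F = 0 := by
  classical
  by_contra hF
  set r := F.natTrailingDegree with hr
  set c := F.coeff r with hc
  have hc0 : c ≠ 0 := by
    rw [hc, hr]
    exact trailingCoeff_nonzero_iff_nonzero.2 hF
  -- the finitely generated ring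
  set s : Finset K := insert c⁻¹ ((Finset.range (F.natDegree + 1)).image F.coeff) with hs
  obtain ⟨N, hN⟩ := exists_hom_charP K s
  set R₀ := Algebra.adjoin ℤ (s : Set K) with hR₀
  have hcoeff : ∀ i, F.coeff i ∈ R₀ := by
    intro i
    by_cases hi : i < F.natDegree + 1
    · apply Algebra.subset_adjoin
      rw [hs, Finset.coe_insert]
      right
      rw [Finset.mem_coe, Finset.mem_image]
      exact ⟨i, Finset.mem_range.2 hi, rfl⟩
    · rw [coeff_eq_zero_of_natDegree_lt (by omega)]
      exact zero_mem _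
  have hcinv : c⁻¹ ∈ R₀ := by
    apply Algebra.subset_adjoin
    rw [hs, Finset.coe_insert]
    left
    rfl
  obtain ⟨F₀, hF₀⟩ := exists_lift R₀ F hcoeff
  have hinj : Function.Injective (algebraMap R₀ K) := Subtype.val_injective
  have hL₀ : ∀ m : ℕ, 1 ≤ m → Lf R₀ (F₀ ^ m) = 0 := by
    intro m hm
    apply hinj
    rw [← Lf_map, Polynomial.map_pow, hF₀, h m hm, map_zero]
  have hlow : ∀ i, i < r → F₀.coeff i = 0 := by
    intro i hi
    apply Subtype.ext
    rw [coeff_lift R₀ F F₀ hF₀]
    exact coeff_eq_zero_of_lt_natTrailingDegree hi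
  have hunit : IsUnit (F₀.coeff r) := by
    rw [isUnit_iff_exists_inv]
    refine ⟨⟨c⁻¹, hcinv⟩, Subtype.ext ?_⟩
    change ((F₀.coeff r : R₀) : K) * c⁻¹ = 1
    rw [coeff_lift R₀ F F₀ hF₀]
    exact mul_inv_cancel₀ hc0
  by_cases hr0 : r = 0
  · -- nonzero constant term
    obtain ⟨p, hpN, hp⟩ := Nat.exists_infinite_primes (N + 1)
    obtain ⟨k, _, _, ⟨φ⟩⟩ := hN p hp (by omega)
    haveI := Fact.mk hp
    have h1 : Lf k ((F₀.map φ) ^ p) = 0 := by
      rw [← Polynomial.map_pow, Lf_map, hL₀ p hp.one_lt.le, map_zero]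
    have hX : X ∣ F₀.map φ - C ((F₀.map φ).coeff 0) := by
      rw [X_dvd_iff]
      simp
    have hXp : X ^ p ∣ (F₀.map φ) ^ p - C (((F₀.map φ).coeff 0) ^ p) := by
      have := pow_dvd_pow_of_dvd hX p
      rwa [sub_pow_char, ← C_pow] at this
    rw [Lf_charP p hp] at h1
    have h2 : ∀ i ∈ Finset.range p, (i.factorial : k) * ((F₀.map φ) ^ p).coeff i =
        if i = 0 then ((F₀.map φ).coeff 0) ^ p else 0 := by
      intro i hi
      rw [Finset.mem_range] at hi
      have h3 := (X_pow_dvd_iff.1 hXp) i hi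
      rw [coeff_sub, sub_eq_zero] at h3
      rw [h3, coeff_C]
      split_ifs with h4
      · rw [h4]; simp
      · simp
    rw [Finset.sum_congr rfl h2, Finset.sum_ite_eq' , if_pos (Finset.mem_range.2 hp.pos)] at h1
    have h5 := (hunit.map φ).ne_zero
    apply h5
    rw [coeff_map] at h1
    rw [hr0]
    exact pow_eq_zero_iff (hp.ne_zero) |>.1 h1
  · obtain ⟨p, hp, hpN, hmod⟩ := Nat.exists_prime_gt_modEq_one (k := r) (max N r) hr0
    obtain ⟨k, _, _, ⟨φ⟩⟩ := hN p hp (by omega)
    haveI := Fact.mk hp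
    have hdvd : r ∣ p - 1 := (Nat.modEq_iff_dvd' hp.one_lt.le).1 hmod.symm
    obtain ⟨m, hm⟩ := hdvd
    have hm1 : 1 ≤ m := by
      rcases Nat.eq_zero_or_pos m with h0 | h0
      · rw [h0, mul_zero] at hm
        have := hp.two_le
        omega
      · exact h0
    have h1 : Lf k ((F₀.map φ) ^ m) = 0 := by
      rw [← Polynomial.map_pow, Lf_map, hL₀ m hm1, map_zero]
    have hX : X ^ r ∣ F₀.map φ := by
      rw [X_pow_dvd_iff]
      intro i hi
      rw [coeff_map, hlow i hi, map_zero]
    obtain ⟨U, hU⟩ := hX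
    have hU0 : U.coeff 0 ≠ 0 := by
      have h5 := (hunit.map φ).ne_zero
      rw [← coeff_map, hU, mul_comm, coeff_mul_X_pow_self] at h5
      exact h5
    have hW : (F₀.map φ) ^ m = U ^ m * X ^ (p - 1) := by
      rw [hU, mul_pow, ← pow_mul, ← hm, mul_comm]
    rw [Lf_charP p hp, hW] at h1
    have h2 : ∀ i ∈ Finset.range p, (i.factorial : k) * (U ^ m * X ^ (p - 1)).coeff i =
        if i = p - 1 then ((p - 1).factorial : k) * U.coeff 0 ^ m else 0 := by
      intro i hi
      rw [Finset.mem_range] at hi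
      split_ifs with h4
      · rw [h4]
        congr 1
        rw [coeff_mul_X_pow_self, coeff_zero_eq_eval_zero, coeff_zero_eq_eval_zero, eval_pow]
      · rw [coeff_mul_X_pow', if_neg (by omega), mul_zero]
    rw [Finset.sum_congr rfl h2, Finset.sum_ite_eq',
      if_pos (Finset.mem_range.2 (by have := hp.two_le; omega))] at h1
    rcases mul_eq_zero.1 h1 with h3 | h3
    · exact factorial_ne_zero_charP p hp h3
    · exact hU0 (pow_eq_zero_iff (by omega) |>.1 h3)

/-- The factorial theorem over a domain of characteristic `0`. -/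
theorem factorial_domain (R : Type u) [CommRing R] [IsDomain R] [CharZero R] (F : R[X])
    (h : ∀ m : ℕ, 1 ≤ m → Lf R (F ^ m) = 0) : F = 0 := by
  have hinj : Function.Injective (algebraMap R (FractionRing R)) := IsFractionRing.injective _ _
  haveI : CharZero (FractionRing R) := charZero_of_injective_algebraMap hinj
  have := factorial_field (FractionRing R) (F.map (algebraMap R (FractionRing R))) (by
    intro m hm
    rw [← Polynomial.map_pow, Lf_map, h m hm, map_zero])
  exact (Polynomial.map_eq_zero_iff hinj).1 this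

end Pool.Agent.H70IC
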