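import Mathlib
import Pool.Agent.H70IC.FL

/-! # The radical of the image of `∂ - a(t)` over a field of characteristic zero -/

set_option autoImplicit false

namespace Pool.Agent.H70IC

open Polynomial

universe u v

/-- `h ↦ c h' - a h`. -/
noncomputable def Dop {A : Type*} [CommRing A] (c : A) (a : A[X]) : A[X] →ₗ[A] A[X] :=
  c • (derivative : A[X] →ₗ[A] A[X]) - LinearMap.mulLeft A a

theorem Dop_apply {A : Type*} [CommRing A] (c : A) (a u : A[X]) :
    Dop c a u = C c * derivative u - a * u := by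
  simp [Dop, smul_eq_C_mul]

/-- In characteristic `p`: no element of the image of `∂ - a` has order exactly `p - 1` at a zero
of `a`. -/
theorem charP_order {k : Type u} [Field k] (p : ℕ) [CharP k p] (hp : p.Prime) (a u W : k[X])
    (ha0 : a.coeff 0 = 0) (hdeg : a.natDegree + 1 < p) (hW : derivative u - a * u = W)
    (hdvd : X ^ (p - 1) ∣ W) : W.coeff (p - 1) = 0 := by
  have hp2 := hp.two_le
  have hne : ∀ i : ℕ, i + 1 < p → ((i : k) + 1) ≠ 0 := by
    intro i hi h
    have : ((i + 1 : ℕ) : k) = 0 := by push_cast; exact h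
    rw [CharP.cast_eq_zero_iff k p] at this
    exact absurd (Nat.le_of_dvd (by omega) this) (by omega)
  set I : k[X] := ∑ i ∈ Finset.range (a.natDegree + 1), monomial (i + 1) (a.coeff i / ((i : k) + 1))
    with hI
  have hI' : derivative I = a := by
    rw [hI, derivative_sum]
    conv_rhs => rw [a.as_sum_range' (a.natDegree + 1) (Nat.lt_succ_self _)]
    refine Finset.sum_congr rfl fun i hi => ?_
    rw [derivative_monomial, Nat.add_sub_cancel]
    congr 1
    push_cast
    exact div_mul_cancel₀ _ (hne i (by rw [Finset.mem_range] at hi; omega))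
  have hI2 : X ^ 2 ∣ I := by
    rw [hI]
    apply Finset.dvd_sum
    intro i _
    rcases Nat.eq_zero_or_pos i with h0 | h0
    · rw [h0, ha0]
      simp
    · rw [X_pow_dvd_iff]
      intro j hj
      rw [coeff_monomial, if_neg (by omega)]
  set E : k[X] := ∑ j ∈ Finset.range p, C ((j.factorial : k)⁻¹) * (-I) ^ j with hE
  obtain ⟨q, hq⟩ : ∃ q, p = q + 1 := ⟨p - 1, by omega⟩
  have hpred : p - 1 = q := by omega
  have hE' : derivative E = -(a * E) + a * (C ((q.factorial : k)⁻¹) * (-I) ^ q) := by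
    rw [hE, hq, derivative_sum, Finset.sum_range_succ', Finset.sum_range_succ]
    have h0 : derivative (C (((0 : ℕ).factorial : k)⁻¹) * (-I) ^ 0) = 0 := by simp
    rw [h0, add_zero]
    have h1 : ∀ j ∈ Finset.range q, derivative (C (((j + 1).factorial : k)⁻¹) * (-I) ^ (j + 1)) =
        -(a * (C ((j.factorial : k)⁻¹) * (-I) ^ j)) := by
      intro j hj
      rw [Finset.mem_range] at hj
      have h2 : ((j + 1).factorial : k)⁻¹ * ((j : k) + 1) = (j.factorial : k)⁻¹ := by
        rw [Nat.factorial_succ]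
        push_cast
        rw [mul_inv, mul_comm ((j : k) + 1)⁻¹, mul_assoc, inv_mul_cancel₀ (hne j (by omega)),
          mul_one]
      rw [derivative_C_mul, derivative_pow, derivative_neg, hI', Nat.add_sub_cancel]
      have h3 : C (((j + 1).factorial : k)⁻¹) * (C ((j + 1 : ℕ) : k)) = C ((j.factorial : k)⁻¹) := by
        rw [← C_mul]
        congr 1
        push_cast
        exact h2
      calc C (((j + 1).factorial : k)⁻¹) * (C ((j + 1 : ℕ) : k) * (-I) ^ j * -a)
          = (C (((j + 1).factorial : k)⁻¹) * (C ((j + 1 : ℕ) : k))) * (-I) ^ j * -a := by ring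
        _ = _ := by rw [h3]; ring
    rw [Finset.sum_congr rfl h1, Finset.sum_neg_distrib, ← Finset.mul_sum]
    ring
  have hE0 : E.coeff 0 = 1 := by
    have hI0 : I.coeff 0 = 0 := by
      exact (X_pow_dvd_iff.1 hI2) 0 (by norm_num)
    rw [hE, finset_sum_coeff, hq, Finset.sum_range_succ']
    have h1 : ∀ j ∈ Finset.range q,
        (C (((j + 1).factorial : k)⁻¹) * (-I) ^ (j + 1)).coeff 0 = 0 := by
      intro j _
      rw [coeff_C_mul, coeff_zero_eq_eval_zero, eval_pow, eval_neg, ← coeff_zero_eq_eval_zero, hI0]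
      simp
    rw [Finset.sum_eq_zero h1]
    simp
  have hkey : derivative (E * u) = E * W + a * (C ((q.factorial : k)⁻¹) * (-I) ^ q) * u := by
    rw [derivative_mul, hE', ← hW]
    ring
  have hc := congrArg (fun P => coeff P (p - 1)) hkey
  simp only [coeff_add] at hc
  have hL : (derivative (E * u)).coeff (p - 1) = 0 := by
    rw [coeff_derivative]
    have : (((p - 1 : ℕ) : k) + 1) = 0 := by
      have h2 : ((p - 1 + 1 : ℕ) : k) = 0 := by
        rw [Nat.sub_add_cancel hp.one_lt.le]
        exact CharP.cast_eq_zero k p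
      push_cast at h2
      exact h2
    rw [this, mul_zero]
  have hR : (a * (C ((q.factorial : k)⁻¹) * (-I) ^ q) * u).coeff (p - 1) = 0 := by
    have hd : X ^ (2 * q) ∣ a * (C ((q.factorial : k)⁻¹) * (-I) ^ q) * u := by
      have h1 : X ^ (2 * q) ∣ (-I) ^ q := by
        rw [pow_mul]
        exact pow_dvd_pow_of_dvd (hI2.neg_right) q
      exact ((h1.mul_left _).mul_left _).mul_right _
    exact (X_pow_dvd_iff.1 hd) (p - 1) (by omega)
  have hM : (E * W).coeff (p - 1) = W.coeff (p - 1) := by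
    obtain ⟨U, hU⟩ := hdvd
    have h1 : E * W = (E * U) * X ^ (p - 1) := by rw [hU]; ring
    have h2 : W = U * X ^ (p - 1) := by rw [hU]; ring
    rw [h1, coeff_mul_X_pow_self, h2, coeff_mul_X_pow_self, mul_coeff_zero, hE0, one_mul]
  rw [hL, hM, hR, add_zero] at hc
  exact hc.symm

/-- solutions of `u' - a u = W` are integral over the coefficients. -/
theorem solution_mem {K : Type u} [Field K] (R₀ : Subalgebra ℤ K) (a u W : K[X])
    (ha : ∀ i, a.coeff i ∈ R₀) (hW : ∀ i, W.coeff i ∈ R₀) (hinv : a.leadingCoeff⁻¹ ∈ R₀)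
    (ha0 : a ≠ 0) (h : derivative u - a * u = W) : ∀ i, u.coeff i ∈ R₀ := by
  by_contra hcon
  push Not at hcon
  obtain ⟨i₀, hi₀⟩ := hcon
  classical
  -- maximal bad index
  have hfin : (u.support.filter (fun i => u.coeff i ∉ R₀)).Nonempty := by
    refine ⟨i₀, ?_⟩
    rw [Finset.mem_filter, mem_support_iff]
    refine ⟨fun h0 => hi₀ ?_, hi₀⟩
    rw [h0]
    exact zero_mem _
  obtain ⟨i, hi, hmax⟩ := Finset.exists_max_image _ (fun i : ℕ => i) hfin
  rw [Finset.mem_filter] at hi
  have hgt : ∀ j, i < j → u.coeff j ∈ R₀ := by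
    intro j hj
    by_contra hbad
    have : j ∈ u.support.filter (fun i => u.coeff i ∉ R₀) := by
      rw [Finset.mem_filter, mem_support_iff]
      refine ⟨fun h0 => hbad ?_, hbad⟩
      rw [h0]
      exact zero_mem _
    have := hmax j this
    omega
  set d := a.natDegree with hd
  have hc := congrArg (fun P => coeff P (i + d)) h
  simp only [coeff_sub, coeff_derivative] at hc
  rw [coeff_mul] at hc
  -- isolate the term (d, i)
  have hmem : (d, i) ∈ Finset.HasAntidiagonal.antidiagonal (i + d) := by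
    rw [Finset.HasAntidiagonal.mem_antidiagonal]; omega
  rw [← Finset.add_sum_erase _ _ hmem] at hc
  have hrest : ∑ x ∈ (Finset.HasAntidiagonal.antidiagonal (i + d)).erase (d, i), a.coeff x.1 * u.coeff x.2 ∈ R₀ := by
    apply Subalgebra.sum_mem
    rintro ⟨x, y⟩ hxy
    rw [Finset.mem_erase, Finset.HasAntidiagonal.mem_antidiagonal] at hxy
    obtain ⟨hne, hsum⟩ := hxy
    change x + y = i + d at hsum
    change a.coeff x * u.coeff y ∈ R₀
    by_cases hyi : i < y
    · exact Subalgebra.mul_mem _ (ha x) (hgt y hyi)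
    · have hx : d < x := by
        rcases lt_or_eq_of_le (not_lt.1 hyi) with h1 | h1
        · omega
        · exfalso
          apply hne
          have : x = d := by omega
          rw [this, h1]
      rw [coeff_eq_zero_of_natDegree_lt (by omega), zero_mul]
      exact zero_mem _
  have hder : u.coeff (i + d + 1) * ((i + d : ℕ) + 1) ∈ R₀ := by
    apply Subalgebra.mul_mem _ (hgt _ (by omega))
    have := natCast_mem R₀ (i + d + 1)
    push_cast at this ⊢
    exact this
  have hprod : a.coeff d * u.coeff i ∈ R₀ := by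
    have h2 : a.coeff d * u.coeff i = u.coeff (i + d + 1) * ((i + d : ℕ) + 1) -
        ∑ x ∈ (Finset.HasAntidiagonal.antidiagonal (i + d)).erase (d, i), a.coeff x.1 * u.coeff x.2
          - W.coeff (i + d) := by
      linear_combination -hc
    rw [h2]
    exact Subalgebra.sub_mem _ (Subalgebra.sub_mem _ hder hrest) (hW _)
  apply hi.2
  have hlc : a.leadingCoeff ≠ 0 := leadingCoeff_ne_zero.2 ha0
  have : u.coeff i = a.leadingCoeff⁻¹ * (a.coeff d * u.coeff i) := by
    change u.coeff i = a.leadingCoeff⁻¹ * (a.leadingCoeff * u.coeff i)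
    field_simp
  rw [this]
  exact Subalgebra.mul_mem _ hinv hprod

theorem image_field_zero (K : Type u) [Field K] [CharZero K] (a f : K[X])
    (ha : 1 ≤ a.natDegree) (ha0 : a.coeff 0 = 0)
    (h : ∀ m : ℕ, 1 ≤ m → ∃ u, derivative u - a * u = f ^ m) : f = 0 := by
  classical
  by_contra hf
  have hane : a ≠ 0 := by
    rintro rfl
    simp at ha
  set β := f.coeff 0 with hβ
  by_cases hF : f - C β = 0
  · -- constant `f`
    have hfβ : f = C β := sub_eq_zero.1 hF
    obtain ⟨u, hu⟩ := h 1 le_rfl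
    rw [pow_one] at hu
    have hu0 : u ≠ 0 := by
      rintro rfl
      apply hf
      rw [← hu]
      simp
    have hc := congrArg (fun P => coeff P (a.natDegree + u.natDegree)) hu
    simp only [coeff_sub] at hc
    rw [coeff_mul_degree_add_degree, coeff_derivative,
      coeff_eq_zero_of_natDegree_lt (show u.natDegree < a.natDegree + u.natDegree + 1 by omega),
      hfβ, coeff_C, if_neg (by omega), zero_mul, zero_sub, neg_eq_zero] at hc
    rcases mul_eq_zero.1 hc with h1 | h1
    · exact hane (leadingCoeff_eq_zero.1 h1)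
    · exact hu0 (leadingCoeff_eq_zero.1 h1)
  set F := f - C β with hFdef
  set r := F.natTrailingDegree with hr
  set c := F.coeff r with hc
  have hc0 : c ≠ 0 := trailingCoeff_nonzero_iff_nonzero.2 hF
  have hF0 : F.coeff 0 = 0 := by
    rw [hFdef, coeff_sub, coeff_C_zero, hβ, sub_self]
  have hr0 : r ≠ 0 := by
    intro h0
    apply hc0
    rw [hc, h0, hF0]
  set s : Finset K := {c⁻¹, β⁻¹, a.leadingCoeff⁻¹} ∪
    ((Finset.range (f.natDegree + 1)).image f.coeff ∪
      (Finset.range (a.natDegree + 1)).image a.coeff) with hs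
  obtain ⟨N, hN⟩ := exists_hom_charP K s
  set R₀ := Algebra.adjoin ℤ (s : Set K) with hR₀
  have hcf : ∀ i, f.coeff i ∈ R₀ := by
    intro i
    by_cases hi : i < f.natDegree + 1
    · apply Algebra.subset_adjoin
      rw [Finset.mem_coe, hs]
      simp only [Finset.mem_union, Finset.mem_image, Finset.mem_range]
      exact Or.inr (Or.inl ⟨i, hi, rfl⟩)
    · rw [coeff_eq_zero_of_natDegree_lt (by omega)]
      exact zero_mem _
  have hca : ∀ i, a.coeff i ∈ R₀ := by
    intro i
    by_cases hi : i < a.natDegree + 1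
    · apply Algebra.subset_adjoin
      rw [Finset.mem_coe, hs]
      simp only [Finset.mem_union, Finset.mem_image, Finset.mem_range]
      exact Or.inr (Or.inr ⟨i, hi, rfl⟩)
    · rw [coeff_eq_zero_of_natDegree_lt (by omega)]
      exact zero_mem _
  have hcinv : c⁻¹ ∈ R₀ := by
    apply Algebra.subset_adjoin
    rw [Finset.mem_coe, hs]
    simp
  have hβinv : β⁻¹ ∈ R₀ := by
    apply Algebra.subset_adjoin
    rw [Finset.mem_coe, hs]
    simp
  have hainv : a.leadingCoeff⁻¹ ∈ R₀ := by
    apply Algebra.subset_adjoin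
    rw [Finset.mem_coe, hs]
    simp
  obtain ⟨f₀, hf₀⟩ := exists_lift R₀ f hcf
  obtain ⟨a₀, ha₀⟩ := exists_lift R₀ a hca
  have hinj : Function.Injective (algebraMap R₀ K) := Subtype.val_injective
  have hinjp : Function.Injective (Polynomial.map (algebraMap R₀ K)) :=
    Polynomial.map_injective _ hinj
  have hpowR : ∀ (P : K[X]), (∀ i, P.coeff i ∈ R₀) → ∀ m i, (P ^ m).coeff i ∈ R₀ := by
    intro P hP m i
    obtain ⟨P₀, hP₀⟩ := exists_lift R₀ P hP
    rw [← hP₀, ← Polynomial.map_pow, coeff_map]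
    exact ((P₀ ^ m).coeff i).2
  have hsol : ∀ m : ℕ, 1 ≤ m → ∃ u₀ : R₀[X], derivative u₀ - a₀ * u₀ = f₀ ^ m := by
    intro m hm
    obtain ⟨u, hu⟩ := h m hm
    obtain ⟨u₀, hu₀⟩ := exists_lift R₀ u
      (solution_mem R₀ a u (f ^ m) hca (hpowR f hcf m) hainv hane hu)
    refine ⟨u₀, hinjp ?_⟩
    rw [Polynomial.map_sub, Polynomial.map_mul, ← derivative_map, Polynomial.map_pow, hf₀, ha₀,
      hu₀, hu]
  obtain ⟨p, hp, hpN, hmod⟩ := Nat.exists_prime_gt_modEq_one (k := r)
    (max N (max r (a.natDegree + 1))) hr0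
  obtain ⟨k, _, _, ⟨φ⟩⟩ := hN p hp (by omega)
  haveI := Fact.mk hp
  have hdvd : r ∣ p - 1 := (Nat.modEq_iff_dvd' hp.one_lt.le).1 hmod.symm
  obtain ⟨m, hm⟩ := hdvd
  have hm1 : 1 ≤ m := by
    rcases Nat.eq_zero_or_pos m with h0 | h0
    · rw [h0, mul_zero] at hm
      have := hp.two_le
      omega
    · exact h0
  set fb := f₀.map φ with hfb
  set ab := a₀.map φ with hab
  have hsolk : ∀ m : ℕ, 1 ≤ m → fb ^ m ∈ LinearMap.range (Dop (1 : k) ab) := by
    intro m hm
    obtain ⟨u₀, hu₀⟩ := hsol m hm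
    refine ⟨u₀.map φ, ?_⟩
    rw [Dop_apply, C_1, one_mul, derivative_map, ← Polynomial.map_mul, ← Polynomial.map_sub, hu₀,
      Polynomial.map_pow]
  have hab0 : ab.coeff 0 = 0 := by
    rw [hab, coeff_map]
    have : a₀.coeff 0 = 0 := by
      apply Subtype.ext
      rw [coeff_lift R₀ a a₀ ha₀, ha0]
      rfl
    rw [this, map_zero]
  have habdeg : ab.natDegree + 1 < p := by
    have h1 : ab.natDegree ≤ a₀.natDegree := natDegree_map_le
    have h2 : a₀.natDegree = a.natDegree := by
      rw [← ha₀, natDegree_map_eq_of_injective hinj]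
    omega
  set β₀ := f₀.coeff 0 with hβ₀
  have hβK : ((β₀ : R₀) : K) = β := coeff_lift R₀ f f₀ hf₀ 0
  -- structure of `fb`
  have hX : X ^ r ∣ fb - C (φ β₀) := by
    rw [X_pow_dvd_iff]
    intro i hi
    have h1 : (f₀ - C β₀).coeff i = 0 := by
      apply Subtype.ext
      have h2 : (((f₀ - C β₀).coeff i : R₀) : K) = F.coeff i := by
        rw [hFdef, coeff_sub, coeff_sub, coeff_C, coeff_C]
        change ((f₀.coeff i : R₀) : K) - (((if i = 0 then β₀ else 0 : R₀)) : K) = _
        rw [coeff_lift R₀ f f₀ hf₀]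
        split_ifs
        · rw [hβK]
        · rfl
      rw [h2]
      exact coeff_eq_zero_of_lt_natTrailingDegree hi
    rw [hfb, ← Polynomial.map_C, ← Polynomial.map_sub, coeff_map, h1, map_zero]
  obtain ⟨U, hU⟩ := hX
  have hU0 : U.coeff 0 ≠ 0 := by
    have h1 : (fb - C (φ β₀)).coeff r = φ (f₀.coeff r) := by
      rw [coeff_sub, coeff_C, if_neg hr0, sub_zero, hfb, coeff_map]
    rw [hU, mul_comm, coeff_mul_X_pow_self] at h1
    rw [h1]
    have h2 : IsUnit (f₀.coeff r) := by
      rw [isUnit_iff_exists_inv]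
      refine ⟨⟨c⁻¹, hcinv⟩, Subtype.ext ?_⟩
      change ((f₀.coeff r : R₀) : K) * c⁻¹ = 1
      rw [coeff_lift R₀ f f₀ hf₀]
      have : f.coeff r = c := by
        rw [hc, hFdef, coeff_sub, coeff_C, if_neg hr0, sub_zero]
      rw [this]
      exact mul_inv_cancel₀ hc0
    exact (h2.map φ).ne_zero
  by_cases hβ0 : β = 0
  · -- `f` vanishes at the zero of `a`
    have hφβ : φ β₀ = 0 := by
      have : β₀ = 0 := Subtype.ext (by rw [hβK, hβ0]; rfl)
      rw [this, map_zero]
    rw [hφβ, C_0, sub_zero] at hU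
    obtain ⟨u, hu⟩ := hsolk m hm1
    rw [Dop_apply, C_1, one_mul] at hu
    have hW : fb ^ m = U ^ m * X ^ (p - 1) := by
      rw [hU, mul_pow, ← pow_mul, ← hm, mul_comm]
    have h1 := charP_order p hp ab u (fb ^ m) hab0 habdeg hu (by rw [hW]; exact dvd_mul_left _ _)
    rw [hW, coeff_mul_X_pow_self, coeff_zero_eq_eval_zero, eval_pow,
      ← coeff_zero_eq_eval_zero] at h1
    exact hU0 (pow_eq_zero_iff (by omega) |>.1 h1)
  · have hφβ : φ β₀ ≠ 0 := by
      have h2 : IsUnit β₀ := by
        rw [isUnit_iff_exists_inv]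
        refine ⟨⟨β⁻¹, hβinv⟩, Subtype.ext ?_⟩
        change ((β₀ : R₀) : K) * β⁻¹ = 1
        rw [hβK]
        exact mul_inv_cancel₀ hβ0
      exact (h2.map φ).ne_zero
    have hmemW : fb ^ p * (fb - C (φ β₀)) ^ m ∈ LinearMap.range (Dop (1 : k) ab) := by
      rw [sub_eq_add_neg, add_pow, Finset.mul_sum]
      apply Submodule.sum_mem
      intro i _
      have : fb ^ p * (fb ^ i * (-C (φ β₀)) ^ (m - i) * (m.choose i : k[X])) =
          ((-(φ β₀)) ^ (m - i) * (m.choose i : k)) • fb ^ (p + i) := by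
        rw [smul_eq_C_mul, C_mul, C_pow, C_neg, ← C_eq_natCast, pow_add]
        ring
      rw [this]
      exact Submodule.smul_mem _ _ (hsolk (p + i) (by have := hp.two_le; omega))
    obtain ⟨u, hu⟩ := hmemW
    rw [Dop_apply, C_1, one_mul] at hu
    have hW : fb ^ p * (fb - C (φ β₀)) ^ m = (fb ^ p * U ^ m) * X ^ (p - 1) := by
      rw [hU, mul_pow, ← pow_mul, ← hm]
      ring
    have h1 := charP_order p hp ab u _ hab0 habdeg hu (by rw [hW]; exact dvd_mul_left _ _)
    rw [hW, coeff_mul_X_pow_self, mul_coeff_zero, coeff_zero_eq_eval_zero,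
      coeff_zero_eq_eval_zero, eval_pow, eval_pow, ← coeff_zero_eq_eval_zero,
      ← coeff_zero_eq_eval_zero] at h1
    rcases mul_eq_zero.1 h1 with h3 | h3
    · have h4 := pow_eq_zero_iff (by have := hp.two_le; omega) |>.1 h3
      rw [hfb, coeff_map] at h4
      exact hφβ h4
    · exact hU0 (pow_eq_zero_iff (by omega) |>.1 h3)

/-- Over a field of characteristic zero, if `a` is not constant, no nonzero polynomial has all its
positive powers in the image of `∂ - a`. -/
theorem image_field (K : Type u) [Field K] [CharZero K] (a f : K[X])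
    (ha : 1 ≤ a.natDegree)
    (h : ∀ m : ℕ, 1 ≤ m → ∃ u, derivative u - a * u = f ^ m) : f = 0 := by
  set L := AlgebraicClosure K
  set ι := algebraMap K L
  haveI : CharZero L := charZero_of_injective_algebraMap ι.injective
  have hdeg : (a.map ι).natDegree = a.natDegree := natDegree_map _
  obtain ⟨α, hα⟩ := IsAlgClosed.exists_root (a.map ι) (by
    intro h0
    have : (a.map ι).natDegree = 0 := natDegree_eq_zero_iff_degree_le_zero.2 h0.le
    omega)
  set T : L[X] := X + C α with hT
  have hT' : derivative T = 1 := by simp [hT]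
  have hfT := image_field_zero L ((a.map ι).comp T) ((f.map ι).comp T) (by
      rw [natDegree_comp, hdeg, hT, natDegree_X_add_C, mul_one]
      exact ha) (by
      rw [coeff_zero_eq_eval_zero, eval_comp, hT]
      simpa using hα) (by
      intro m hm
      obtain ⟨u, hu⟩ := h m hm
      refine ⟨(u.map ι).comp T, ?_⟩
      rw [derivative_comp, hT', one_mul, ← mul_comp, ← sub_comp, derivative_map,
        ← Polynomial.map_mul, ← Polynomial.map_sub, hu, Polynomial.map_pow, pow_comp])
  have h2 : (f.map ι) = 0 := by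
    have h3 : ((f.map ι).comp T).comp (X - C α) = f.map ι := by
      rw [comp_assoc, hT]
      simp
    rw [hfT, zero_comp] at h3
    exact h3.symm
  exact (Polynomial.map_eq_zero ι).1 h2

/-- The same with a coefficient `c ≠ 0` in front of the derivation. -/
theorem image_field_c (K : Type u) [Field K] [CharZero K] (c : K) (hc : c ≠ 0) (a f : K[X])
    (i : ℕ) (hi : 1 ≤ i) (ha : a.coeff i ≠ 0)
    (h : ∀ m : ℕ, 1 ≤ m → ∃ u, C c * derivative u - a * u = f ^ m) : f = 0 := by
  apply image_field K (C c⁻¹ * a) f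
  · have h1 : (C c⁻¹ * a).coeff i ≠ 0 := by
      rw [coeff_C_mul]
      exact mul_ne_zero (inv_ne_zero hc) ha
    exact hi.trans (le_natDegree_of_ne_zero h1)
  · intro m hm
    obtain ⟨u, hu⟩ := h m hm
    refine ⟨C c * u, ?_⟩
    rw [derivative_C_mul, ← hu]
    have : C c⁻¹ * C c = (1 : K[X]) := by
      rw [← C_mul, inv_mul_cancel₀ hc, C_1]
    linear_combination (-(a * u)) * this

end Pool.Agent.H70IC
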