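import Mathlib
import Pool.Agent.H70IC.Fld

/-! # The derivations of `A[t][x]` -/

set_option autoImplicit false

namespace Pool.Agent.H70IC

open Polynomial

universe u v

/-- `∂/∂t` on `A[t][x]`. -/
noncomputable def dt (A : Type u) [CommRing A] : Derivation A (A[X][X]) (A[X][X]) :=
  PolynomialModule.equivPolynomialSelf.compDer (Polynomial.derivative' (R := A)).mapCoeffs

theorem coeff_dt {A : Type u} [CommRing A] (P : A[X][X]) (j : ℕ) :
    (dt A P).coeff j = derivative (P.coeff j) := rfl

theorem dt_mul {A : Type u} [CommRing A] (P Q : A[X][X]) :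
    dt A (P * Q) = P * dt A Q + Q * dt A P := by
  rw [Derivation.leibniz, smul_eq_mul, smul_eq_mul]

theorem dt_pow {A : Type u} [CommRing A] (P : A[X][X]) (n : ℕ) :
    dt A (P ^ n) = n * P ^ (n - 1) * dt A P := by
  rw [Derivation.leibniz_pow, nsmul_eq_mul, smul_eq_mul, mul_assoc]

theorem dt_C {A : Type u} [CommRing A] (r : A[X]) : dt A (C r) = C (derivative r) := by
  ext j
  rw [coeff_dt, coeff_C, coeff_C]
  split_ifs <;> simp

theorem dt_X {A : Type u} [CommRing A] : dt A (X : A[X][X]) = 0 := by
  ext j
  rw [coeff_dt, coeff_X]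
  split_ifs <;> simp

theorem dt_natCast {A : Type u} [CommRing A] (n : ℕ) : dt A (n : A[X][X]) = 0 := by
  rw [← C_eq_natCast, dt_C]
  simp

theorem Lf_dt {A : Type u} [CommRing A] (P : A[X][X]) :
    Lf A[X] (dt A P) = derivative (Lf A[X] P) := by
  have h : ∃ n, (dt A P).natDegree < n ∧ P.natDegree < n :=
    ⟨max (dt A P).natDegree P.natDegree + 1, by omega, by omega⟩
  obtain ⟨n, h1, h2⟩ := h
  rw [Lf_eq_sum _ n h1, Lf_eq_sum _ n h2, derivative_sum]
  refine Finset.sum_congr rfl fun j _ => ?_
  rw [coeff_dt, ← nsmul_eq_mul, ← nsmul_eq_mul, derivative_smul]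

/-- `c ∂_t - a ∂_x` -/
noncomputable def del {A : Type u} [CommRing A] (c a : A) (P : A[X][X]) : A[X][X] :=
  C (C c) * dt A P - C (C a) * derivative P

theorem del_mul {A : Type u} [CommRing A] (c a : A) (P Q : A[X][X]) :
    del c a (P * Q) = P * del c a Q + Q * del c a P := by
  rw [del, del, del, dt_mul, derivative_mul]
  ring

theorem del_pow {A : Type u} [CommRing A] (c a : A) (P : A[X][X]) (n : ℕ) :
    del c a (P ^ n) = n * P ^ (n - 1) * del c a P := by
  rw [del, del, dt_pow, derivative_pow, C_eq_natCast]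
  ring

/-- the key identity -/
theorem Dop_Lf {A : Type u} [CommRing A] (c a : A) (P : A[X][X]) :
    Dop c (C a) (Lf A[X] P) = Lf A[X] (del c a P) - C a * P.coeff 0 := by
  rw [Dop_apply, del, map_sub, Lf_C_mul, Lf_C_mul, Lf_dt, Lf_derivative]
  ring

/-- The substitution `t ↦ t + b x`. -/
noncomputable def Phi {B : Type u} [CommRing B] (b : B) : B[X] →+* B[X][X] :=
  eval₂RingHom (C.comp C) (C X + C (C b) * X)

theorem Phi_C {B : Type u} [CommRing B] (b r : B) : Phi b (C r) = C (C r) := by
  simp [Phi]

theorem Phi_X {B : Type u} [CommRing B] (b : B) : Phi b X = C X + C (C b) * X := by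
  simp [Phi]

theorem Phi_monomial {B : Type u} [CommRing B] (b r : B) (n : ℕ) :
    Phi b (monomial n r) = C (C r) * (C X + C (C b) * X) ^ n := by
  rw [← C_mul_X_pow_eq_monomial, map_mul, map_pow, Phi_C, Phi_X]

theorem derivative_Phi {B : Type u} [CommRing B] (b : B) (F : B[X]) :
    derivative (Phi b F) = C (C b) * Phi b (derivative F) := by
  induction F using Polynomial.induction_on' with
  | add p q hp hq => rw [map_add, derivative_add, derivative_add, map_add, hp, hq]; ring
  | monomial n r =>
    rw [derivative_monomial, Phi_monomial, Phi_monomial, derivative_C_mul, derivative_pow,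
      derivative_add, derivative_C, zero_add, derivative_C_mul, derivative_X, C_mul, C_mul,
      map_natCast, map_natCast, map_natCast]
    ring

theorem dt_Phi {B : Type u} [CommRing B] (b : B) (F : B[X]) :
    dt B (Phi b F) = Phi b (derivative F) := by
  induction F using Polynomial.induction_on' with
  | add p q hp hq => rw [map_add, map_add, derivative_add, map_add, hp, hq]
  | monomial n r =>
    rw [derivative_monomial, Phi_monomial, Phi_monomial, dt_mul, dt_pow, map_add, dt_mul, dt_C,
      dt_C, dt_C, dt_X, derivative_C, derivative_C, derivative_X, C_0, C_1, C_mul, C_mul,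
      map_natCast, map_natCast]
    ring

theorem Phi_coeff_zero {B : Type u} [CommRing B] (b : B) (F : B[X]) :
    (Phi b F).coeff 0 = F := by
  induction F using Polynomial.induction_on' with
  | add p q hp hq => rw [map_add, coeff_add, hp, hq]
  | monomial n r =>
    rw [Phi_monomial, coeff_C_mul, coeff_zero_eq_eval_zero, eval_pow]
    simp [C_mul_X_pow_eq_monomial]

/-- `T (c F' - a F) = - a F` where `T F = Lf (F (t + b x))` and `a b = c`. -/
theorem Lf_Phi_Dop {B : Type u} [CommRing B] (b c a : B) (h : a * b = c) (F : B[X]) :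
    Lf B[X] (Phi b (Dop c (C a) F)) = - (C a * F) := by
  rw [Dop_apply, map_sub, map_mul, map_mul, Phi_C, Phi_C]
  have h1 : C (C c) * Phi b (derivative F) - C (C a) * Phi b F =
      C (C a) * (derivative (Phi b F) - Phi b F) := by
    rw [derivative_Phi, ← h, C_mul, C_mul]
    ring
  rw [h1, Lf_C_mul, map_sub, Lf_derivative, Phi_coeff_zero]
  ring

end Pool.Agent.H70IC
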