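import Mathlib
import Pool.Agent.H70IC.Ops

/-! # The certificate in the case of a constant non-zero-divisor -/

set_option autoImplicit false

namespace Pool.Agent.H70IC

open Polynomial

universe u v

/-- The polynomial with coefficient `q (j, l)` at `x^j t^l`. -/
noncomputable def Gen {n : ℕ} {R : Type*} [CommRing R] (q : Fin n × Fin n → R) : R[X][X] :=
  ∑ s, monomial (s.1 : ℕ) (monomial (s.2 : ℕ) (q s))

theorem Gen_map {n : ℕ} {R S : Type*} [CommRing R] [CommRing S] (φ : R →+* S)
    (q : Fin n × Fin n → R) : (Gen q).map (mapRingHom φ) = Gen (fun s => φ (q s)) := by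
  rw [Gen, Gen, Polynomial.map_sum]
  refine Finset.sum_congr rfl fun s _ => ?_
  rw [map_monomial, coe_mapRingHom, map_monomial]

theorem Gen_mul {n : ℕ} {R : Type*} [CommRing R] (r : R)
    (q : Fin n × Fin n → R) : Gen (fun s => q s * r) = C (C r) * Gen q := by
  rw [Gen, Gen, Finset.mul_sum]
  refine Finset.sum_congr rfl fun s _ => ?_
  rw [C_mul_monomial, C_mul_monomial, mul_comm r]

theorem Gen_coeff {n : ℕ} {R : Type*} [CommRing R] (q : Fin n × Fin n → R)
    (s : Fin n × Fin n) : ((Gen q).coeff s.1).coeff s.2 = q s := by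
  classical
  rw [Gen, finsetSum_coeff, finsetSum_coeff, Finset.sum_eq_single s]
  · rw [coeff_monomial, if_pos rfl, coeff_monomial, if_pos rfl]
  · intro s' _ hne
    rw [coeff_monomial]
    split_ifs with h
    · rw [coeff_monomial, if_neg]
      intro h2
      exact hne (Prod.ext (Fin.ext h) (Fin.ext h2))
    · simp
  · intro h
    exact absurd (Finset.mem_univ _) h

theorem Gen_coeff_not {n : ℕ} {R : Type*} [CommRing R] (q : Fin n × Fin n → R)
    (j l : ℕ) (h : n ≤ j ∨ n ≤ l) : ((Gen q).coeff j).coeff l = 0 := by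
  rw [Gen, finsetSum_coeff, finsetSum_coeff]
  apply Finset.sum_eq_zero
  intro s _
  rw [coeff_monomial]
  split_ifs with h1
  · rw [coeff_monomial, if_neg]
    intro h2
    have := s.1.2
    have := s.2.2
    omega
  · simp

theorem eq_Gen {n : ℕ} {R : Type*} [CommRing R] (G : R[X][X])
    (h : ∀ j l, (n ≤ j ∨ n ≤ l) → (G.coeff j).coeff l = 0) :
    G = Gen (fun s : Fin n × Fin n => (G.coeff s.1).coeff s.2) := by
  ext j l
  by_cases hjl : n ≤ j ∨ n ≤ l
  · rw [h j l hjl, Gen_coeff_not _ j l hjl]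
  · push Not at hjl
    exact (Gen_coeff (fun s : Fin n × Fin n => (G.coeff s.1).coeff s.2)
      (⟨j, hjl.1⟩, ⟨l, hjl.2⟩)).symm

theorem exists_bound {R : Type*} [CommRing R] (G : R[X][X]) :
    ∃ n : ℕ, ∀ j l, (n ≤ j ∨ n ≤ l) → (G.coeff j).coeff l = 0 := by
  refine ⟨G.natDegree + 1 + ∑ j ∈ Finset.range (G.natDegree + 1), ((G.coeff j).natDegree + 1), ?_⟩
  intro j l h
  by_cases hj : G.natDegree < j
  · rw [coeff_eq_zero_of_natDegree_lt hj, coeff_zero]
  · have h1 : (G.coeff j).natDegree + 1 ≤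
        ∑ j ∈ Finset.range (G.natDegree + 1), ((G.coeff j).natDegree + 1) :=
      Finset.single_le_sum (f := fun j => (G.coeff j).natDegree + 1) (fun _ _ => Nat.zero_le _)
        (Finset.mem_range.2 (by omega))
    rcases h with h | h
    · omega
    · rw [coeff_eq_zero_of_natDegree_lt]
      omega

theorem mem_radical_of_Lf (P : Type u) [CommRing P] [Algebra ℚ P] (J : Ideal P) (n : ℕ)
    (q : Fin n × Fin n → P)
    (h : ∀ m : ℕ, 1 ≤ m → ∀ l, (Lf P[X] (Gen q ^ m)).coeff l ∈ J) (s : Fin n × Fin n) :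
    q s ∈ J.radical := by
  rw [Ideal.radical_eq_sInf, Submodule.mem_sInf]
  rintro 𝔓 ⟨hJ, hprime⟩
  set π := Ideal.Quotient.mk 𝔓
  have : CharZero (P ⧸ 𝔓) := algebraRat.charZero _
  have hG := factorial_domain (P ⧸ 𝔓)[X] (Gen (fun s => π (q s))) (by
    intro m hm
    rw [← Gen_map, ← Polynomial.map_pow, Lf_map]
    ext l
    rw [coe_mapRingHom, coeff_map, coeff_zero, Ideal.Quotient.eq_zero_iff_mem]
    exact hJ (h m hm l))
  have h2 := Gen_coeff (fun s => π (q s)) s
  rw [hG, coeff_zero, coeff_zero] at h2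
  exact Ideal.Quotient.eq_zero_iff_mem.1 h2.symm

theorem Dop_map {A B : Type*} [CommRing A] [CommRing B] (α : A →+* B) (c : A) (a u : A[X]) :
    (Dop c a u).map α = Dop (α c) (a.map α) (u.map α) := by
  rw [Dop_apply, Dop_apply, Polynomial.map_sub, Polynomial.map_mul, Polynomial.map_mul, map_C,
    derivative_map]

theorem exists_lift2 {A B : Type*} [CommRing A] [CommRing B] (α : A →+* B) (W : B[X][X])
    (h : ∀ j l, ∃ v, α v = (W.coeff j).coeff l) : ∃ Y : A[X][X], Y.map (mapRingHom α) = W := by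
  obtain ⟨n, hn⟩ := exists_bound W
  choose v hv using h
  refine ⟨Gen (fun s : Fin n × Fin n => v s.1 s.2), ?_⟩
  rw [Gen_map, eq_Gen W hn]
  congr 1
  funext s
  rw [hv]

theorem certificate_loc (A B : Type u) [CommRing A] [CommRing B] [Algebra ℚ A] [Algebra A B]
    (hinj : Function.Injective (algebraMap A B)) (a c : A) (b ainv : B)
    (hb : algebraMap A B a * b = algebraMap A B c) (hainv : algebraMap A B a * ainv = 1)
    (hloc : ∀ z : B, ∃ (k : ℕ) (v : A), algebraMap A B a ^ k * z = algebraMap A B v)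
    (f : A[X]) (h : ∀ m : ℕ, 1 ≤ m → ∃ u, Dop c (C a) u = f ^ m) :
    ∃ m₁ : ℕ, 1 ≤ m₁ ∧ ∃ Y : A[X][X], f ^ m₁ = C a * Y.coeff 0 ∧ del c a Y = 0 := by
  classical
  set α := algebraMap A B with hα
  set fB := f.map α with hfB
  set G := Phi b fB with hGdef
  obtain ⟨n, hn⟩ := exists_bound G
  set q : Fin n × Fin n → B := fun s => (G.coeff s.1).coeff s.2 with hq
  have hG : G = Gen q := eq_Gen G hn
  -- the big polynomial ring
  set Θ : MvPolynomial (Option (Fin n × Fin n)) A →ₐ[A] B[X] :=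
    MvPolynomial.aeval (fun o => o.elim X (fun s => C (q s) * X)) with hΘ
  have hΘn : Θ (MvPolynomial.X none) = X := by rw [hΘ, MvPolynomial.aeval_X]; rfl
  have hΘs : ∀ s, Θ (MvPolynomial.X (some s)) = C (q s) * X := by
    intro s
    rw [hΘ, MvPolynomial.aeval_X]
    rfl
  have hΘC : ∀ r, Θ (MvPolynomial.C r) = C (α r) := by
    intro r
    rw [hΘ, MvPolynomial.aeval_C]
    rfl
  set J : Ideal (MvPolynomial (Option (Fin n × Fin n)) A) := RingHom.ker Θ.toRingHom ⊔
    Ideal.span {MvPolynomial.C a * MvPolynomial.X none} with hJ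
  set Q : Fin n × Fin n → MvPolynomial (Option (Fin n × Fin n)) A :=
    fun s => MvPolynomial.X (some s) with hQ
  have hker : ∀ p, Θ p = 0 → p ∈ J := by
    intro p hp
    apply (le_sup_left : RingHom.ker Θ.toRingHom ≤ J)
    rw [RingHom.mem_ker]
    exact hp
  have hspan : ∀ p, MvPolynomial.C a * MvPolynomial.X none * p ∈ J := by
    intro p
    apply (le_sup_right : Ideal.span {MvPolynomial.C a * MvPolynomial.X none} ≤ J)
    exact Ideal.mul_mem_right _ _ (Ideal.mem_span_singleton_self _)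
  -- claim 1
  have claim1 : ∀ m : ℕ, 1 ≤ m → ∀ l, (Lf _ (Gen Q ^ m)).coeff l ∈ J := by
    intro m hm l
    obtain ⟨u, hu⟩ := h m hm
    have hkey : (Lf _ (Gen Q ^ m)).map Θ.toRingHom =
        C (X ^ m) * (-(C (α a) * u.map α)).map C := by
      rw [← coe_mapRingHom, ← Lf_map, Polynomial.map_pow, Gen_map]
      have h1 : Gen (fun s => Θ.toRingHom (Q s)) = C (C X) * (Gen q).map (mapRingHom C) := by
        rw [Gen_map, ← Gen_mul]
        congr 1
        funext s
        exact hΘs s
      rw [h1, mul_pow, ← C_pow, ← C_pow, ← Polynomial.map_pow, Lf_C_mul, Lf_map, coe_mapRingHom]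
      congr 2
      have h2 : Gen q ^ m = Phi b (Dop (α c) (C (α a)) (u.map α)) := by
        rw [← hG, hGdef, ← map_pow, hfB, ← Polynomial.map_pow, ← hu, Dop_map, map_C]
      rw [h2, Lf_Phi_Dop b (α c) (α a) hb]
    set e := (Lf _ (Gen Q ^ m)).coeff l with he
    set e' : MvPolynomial (Option (Fin n × Fin n)) A := MvPolynomial.C a * MvPolynomial.X none *
      (MvPolynomial.X none ^ (m - 1) * MvPolynomial.C (-(u.coeff l))) with he'
    have h3 : Θ e = Θ e' := by
      have h4 := congrArg (fun P => coeff P l) hkey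
      simp only [coeff_map] at h4
      change Θ e = _ at h4
      rw [h4, coeff_C_mul, coeff_map, coeff_neg, coeff_C_mul, coeff_map, he', map_mul, map_mul,
        map_mul, map_pow, hΘn, hΘC, hΘC]
      obtain ⟨m', rfl⟩ : ∃ m', m = m' + 1 := ⟨m - 1, by omega⟩
      rw [Nat.add_sub_cancel, map_neg, map_neg, C_mul, map_neg, pow_succ]
      ring
    have h5 : e = (e - e') + e' := by ring
    rw [h5]
    apply J.add_mem _ (hspan _)
    apply hker
    rw [map_sub, h3, sub_self]
  -- claim 3
  set I : Ideal (MvPolynomial (Option (Fin n × Fin n)) A) := Ideal.span (Set.range Q) with hI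
  have hIfg : I.FG := Submodule.fg_span (Set.finite_range Q)
  have hIJ : I ≤ J.radical := by
    rw [hI, Ideal.span_le]
    rintro _ ⟨s, rfl⟩
    exact mem_radical_of_Lf _ J n Q claim1 s
  obtain ⟨N, hN⟩ := Ideal.exists_pow_le_of_le_radical_of_fg hIJ hIfg
  have hN' : I ^ (N + 1) ≤ J := (Ideal.pow_le_pow_right (Nat.le_succ N)).trans hN
  -- submodules
  set M₁ : Submodule A B := Submodule.span A (Set.range q) with hM₁
  set M : Submodule A B := 1 ⊔ M₁ with hM
  have h1M : (1 : Submodule A B) ≤ M := le_sup_left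
  have hM1M : M₁ ≤ M := le_sup_right
  -- claim 4a
  have claim4a0 : ∀ m ∈ M₁, ∃ p ∈ I, Θ p = C m * X := by
    intro m hm
    induction hm using Submodule.span_induction with
    | mem x hx =>
      obtain ⟨s, rfl⟩ := hx
      exact ⟨Q s, Ideal.subset_span ⟨s, rfl⟩, hΘs s⟩
    | zero => exact ⟨0, I.zero_mem, by simp⟩
    | add x y _ _ hx hy =>
      obtain ⟨p, hp, hp'⟩ := hx
      obtain ⟨p2, hp2, hp2'⟩ := hy
      exact ⟨p + p2, I.add_mem hp hp2, by rw [map_add, hp', hp2', C_add]; ring⟩
    | smul r x _ hx =>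
      obtain ⟨p, hp, hp'⟩ := hx
      exact ⟨MvPolynomial.C r * p, I.mul_mem_left _ hp, by
        rw [map_mul, hp', hΘC, Algebra.smul_def, C_mul]; ring⟩
  have claim4a : ∀ (i : ℕ) (z : B), z ∈ M₁ ^ i → ∃ p ∈ I ^ i, Θ p = C z * X ^ i := by
    intro i z hz
    induction hz using Submodule.pow_induction_on_left' with
    | algebraMap r => exact ⟨MvPolynomial.C r, by simp, by rw [hΘC]; simp [hα]⟩
    | add x y i _ _ hx hy =>
      obtain ⟨p, hp, hp'⟩ := hx
      obtain ⟨p2, hp2, hp2'⟩ := hy
      exact ⟨p + p2, (I ^ i).add_mem hp hp2, by rw [map_add, hp', hp2', C_add]; ring⟩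
    | mem_mul m hm i x _ hx =>
      obtain ⟨p, hp, hp'⟩ := claim4a0 m hm
      obtain ⟨p2, hp2, hp2'⟩ := hx
      refine ⟨p * p2, ?_, by rw [map_mul, hp', hp2', C_mul, Nat.succ_eq_add_one, pow_succ]; ring⟩
      rw [Nat.succ_eq_add_one, pow_succ']
      exact Ideal.mul_mem_mul hp hp2
  -- claim 4b
  have claim4b : ∀ (w : MvPolynomial (Option (Fin n × Fin n)) A) (i : ℕ),
      (Θ w).coeff i ∈ M ^ i := by
    intro w
    induction w using MvPolynomial.induction_on with
    | C r =>
      intro i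
      rw [hΘC, coeff_C]
      split_ifs with h0
      · rw [h0, pow_zero]
        exact Submodule.algebraMap_mem r
      · exact Submodule.zero_mem _
    | add p p2 hp hp2 =>
      intro i
      rw [map_add, coeff_add]
      exact Submodule.add_mem _ (hp i) (hp2 i)
    | mul_X p o hp =>
      intro i
      cases o with
      | none =>
        rw [map_mul, hΘn]
        cases i with
        | zero => rw [coeff_mul_X_zero]; exact Submodule.zero_mem _
        | succ i =>
          rw [coeff_mul_X, pow_succ]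
          have := Submodule.mul_mem_mul (hp i) (h1M (Submodule.mem_one.2 ⟨1, map_one _⟩))
          rwa [mul_one] at this
      | some s =>
        rw [map_mul, hΘs, ← mul_assoc]
        cases i with
        | zero => rw [coeff_mul_X_zero]; exact Submodule.zero_mem _
        | succ i =>
          rw [coeff_mul_X, pow_succ, coeff_mul_C]
          exact Submodule.mul_mem_mul (hp i) (hM1M (Submodule.subset_span ⟨s, rfl⟩))
  -- claim 4c
  have claim4c : ∀ z ∈ M₁ ^ (N + 1), ∃ w ∈ M ^ N, z = α a * w := by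
    intro z hz
    obtain ⟨p, hp, hp'⟩ := claim4a _ z hz
    have hpJ := hN' hp
    rw [hJ, Submodule.mem_sup] at hpJ
    obtain ⟨κ, hκ, w', hw', hsum⟩ := hpJ
    rw [Ideal.mem_span_singleton'] at hw'
    obtain ⟨w, hw⟩ := hw'
    rw [RingHom.mem_ker] at hκ
    change Θ κ = 0 at hκ
    have h1 : Θ p = Θ w * C (α a) * X := by
      rw [← hsum, map_add, hκ, zero_add, ← hw, map_mul, map_mul, hΘC, hΘn]
      ring
    rw [hp'] at h1
    have h2 := congrArg (fun P => coeff P (N + 1)) h1
    simp only [coeff_C_mul, coeff_X_pow, if_true, mul_one, coeff_mul_X, coeff_mul_C] at h2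
    exact ⟨(Θ w).coeff N, claim4b w N, by rw [h2]; ring⟩
  -- claim 5
  have claim5a : ∀ j : ℕ, M ^ (j + 1) ≤ M ^ j ⊔ M₁ ^ (j + 1) := by
    intro j
    induction j with
    | zero => simp [hM]
    | succ j ih =>
      calc M ^ (j + 1 + 1) = M ^ (j + 1) * (1 ⊔ M₁) := by rw [pow_succ _ (j + 1)]
        _ = M ^ (j + 1) ⊔ M ^ (j + 1) * M₁ := by rw [Submodule.mul_sup, mul_one]
        _ ≤ M ^ (j + 1) ⊔ M₁ ^ (j + 1 + 1) := by
          apply sup_le le_sup_left
          refine (mul_le_mul' ih le_rfl).trans ?_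
          rw [Submodule.sup_mul]
          apply sup_le
          · refine le_trans ?_ le_sup_left
            rw [pow_succ]
            exact mul_le_mul' le_rfl hM1M
          · rw [← pow_succ]
            exact le_sup_right
  have claim5b : M ^ (N + 1) ≤ M ^ N := by
    refine (claim5a N).trans (sup_le le_rfl ?_)
    intro z hz
    obtain ⟨w, hw, rfl⟩ := claim4c z hz
    rw [hα, ← Algebra.smul_def]
    exact Submodule.smul_mem _ _ hw
  have claim5c : ∀ i, M ^ (N + i) ≤ M ^ N := by
    intro i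
    induction i with
    | zero => exact le_rfl
    | succ i ih =>
      rw [← add_assoc, pow_succ]
      refine (mul_le_mul' ih le_rfl).trans ?_
      rw [← pow_succ]
      exact claim5b
  have claim5 : ∀ x ∈ M ^ N, ∀ y ∈ M ^ N, x * y ∈ M ^ N := by
    intro x hx y hy
    have := Submodule.mul_mem_mul hx hy
    rw [← pow_add] at this
    exact claim5c N this
  have hone : ∀ i, (1 : Submodule A B) ≤ M ^ i := by
    intro i
    induction i with
    | zero => rw [pow_zero]
    | succ i ih =>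
      rw [pow_succ]
      calc (1 : Submodule A B) = 1 * 1 := (mul_one _).symm
        _ ≤ M ^ i * M := mul_le_mul' ih h1M
  -- claim 6
  have claim6 : ∀ e : ℕ, ∀ z ∈ M₁ ^ ((N + 1) * e), ∃ w ∈ M ^ N, z = α a ^ e * w := by
    intro e
    induction e with
    | zero =>
      intro z hz
      rw [mul_zero, pow_zero] at hz
      exact ⟨z, hone N hz, by rw [pow_zero, one_mul]⟩
    | succ e ih =>
      intro z hz
      rw [mul_add, mul_one, pow_add] at hz
      induction hz using Submodule.mul_induction_on' with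
      | mem_mul_mem x hx y hy =>
        obtain ⟨w1, hw1, h1⟩ := ih x hx
        obtain ⟨w2, hw2, h2⟩ := claim4c y hy
        exact ⟨w1 * w2, claim5 _ hw1 _ hw2, by rw [h1, h2, pow_succ]; ring⟩
      | add x _ y _ hx hy =>
        obtain ⟨w1, hw1, h1⟩ := hx
        obtain ⟨w2, hw2, h2⟩ := hy
        exact ⟨w1 + w2, Submodule.add_mem _ hw1 hw2, by rw [h1, h2]; ring⟩
  -- claim 7
  have claim7a : ∃ κ₀ : ℕ, ∀ s, ∃ v, α a ^ κ₀ * q s = α v := by
    choose k v hkv using fun s => hloc (q s)
    refine ⟨∑ s, k s, fun s => ?_⟩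
    have hle : k s ≤ ∑ s, k s :=
      Finset.single_le_sum (f := k) (fun _ _ => Nat.zero_le _) (Finset.mem_univ s)
    obtain ⟨r, hr⟩ := Nat.exists_eq_add_of_le hle
    refine ⟨a ^ r * v s, ?_⟩
    rw [hr, pow_add, mul_comm (α a ^ k s), mul_assoc, hkv s, map_mul, map_pow]
  obtain ⟨κ₀, hκ₀⟩ := claim7a
  have claim7b : ∀ w ∈ M, ∃ v, α a ^ κ₀ * w = α v := by
    intro w hw
    rw [hM, Submodule.mem_sup] at hw
    obtain ⟨x, hx, y, hy, rfl⟩ := hw
    obtain ⟨r, rfl⟩ := Submodule.mem_one.1 hx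
    have hy' : ∃ v, α a ^ κ₀ * y = α v := by
      induction hy using Submodule.span_induction with
      | mem x hx => obtain ⟨s, rfl⟩ := hx; exact hκ₀ s
      | zero => exact ⟨0, by simp⟩
      | add x y _ _ hx hy =>
        obtain ⟨v1, h1⟩ := hx
        obtain ⟨v2, h2⟩ := hy
        exact ⟨v1 + v2, by rw [mul_add, h1, h2, map_add]⟩
      | smul r x _ hx =>
        obtain ⟨v1, h1⟩ := hx
        exact ⟨r * v1, by rw [Algebra.smul_def, mul_left_comm, h1, map_mul]⟩
    obtain ⟨v, hv⟩ := hy'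
    exact ⟨a ^ κ₀ * r + v, by rw [mul_add, hv, map_add, map_mul, map_pow]⟩
  have claim7 : ∀ (i : ℕ) (w : B), w ∈ M ^ i → ∃ v, α a ^ (κ₀ * i) * w = α v := by
    intro i w hw
    induction hw using Submodule.pow_induction_on_left' with
    | algebraMap r => exact ⟨r, by simp [hα]⟩
    | add x y i _ _ hx hy =>
      obtain ⟨v1, h1⟩ := hx
      obtain ⟨v2, h2⟩ := hy
      exact ⟨v1 + v2, by rw [mul_add, h1, h2, map_add]⟩
    | mem_mul m hm i x _ hx =>
      obtain ⟨v1, h1⟩ := claim7b m hm
      obtain ⟨v2, h2⟩ := hx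
      refine ⟨v1 * v2, ?_⟩
      rw [map_mul, ← h1, ← h2, Nat.succ_eq_add_one, mul_add, mul_one, pow_add]
      ring
  -- claim 8
  have claim8a : ∀ j l, (G.coeff j).coeff l ∈ M₁ := by
    intro j l
    by_cases hjl : n ≤ j ∨ n ≤ l
    · rw [hn j l hjl]
      exact Submodule.zero_mem _
    · push Not at hjl
      exact Submodule.subset_span ⟨(⟨j, hjl.1⟩, ⟨l, hjl.2⟩), rfl⟩
  have claim8 : ∀ m j l, ((G ^ m).coeff j).coeff l ∈ M₁ ^ m := by
    intro m
    induction m with
    | zero =>
      intro j l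
      rw [pow_zero, pow_zero, coeff_one]
      split_ifs
      · rw [coeff_one]
        split_ifs
        · exact (Submodule.mem_one.2 ⟨1, map_one _⟩)
        · exact Submodule.zero_mem _
      · rw [coeff_zero]
        exact Submodule.zero_mem _
    | succ m ih =>
      intro j l
      rw [pow_succ, pow_succ, coeff_mul, finsetSum_coeff]
      apply Submodule.sum_mem
      intro x _
      rw [coeff_mul]
      apply Submodule.sum_mem
      intro y _
      exact Submodule.mul_mem_mul (ih _ _) (claim8a _ _)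
  -- conclusion
  set κ := κ₀ * N with hκ
  refine ⟨(N + 1) * (κ + 1), Nat.mul_pos (Nat.succ_pos _) (Nat.succ_pos _), ?_⟩
  set m₁ := (N + 1) * (κ + 1) with hm₁
  have hWc : ∀ j l, ∃ v, α v = ((C (C ainv) * G ^ m₁).coeff j).coeff l := by
    intro j l
    rw [coeff_C_mul, coeff_C_mul]
    obtain ⟨w, hw, hw'⟩ := claim6 (κ + 1) _ (claim8 m₁ j l)
    obtain ⟨v, hv⟩ := claim7 N w hw
    refine ⟨v, ?_⟩
    rw [hw', ← hv, ← hκ, pow_succ]
    linear_combination (-(α a ^ κ * w)) * hainv
  obtain ⟨Y, hY⟩ := exists_lift2 α _ hWc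
  have hG0 : ∀ F : B[X], (Phi b F).coeff 0 = F := Phi_coeff_zero b
  have hCa : C (α a) * C ainv = (1 : B[X]) := by rw [← C_mul, hainv, C_1]
  refine ⟨Y, ?_, ?_⟩
  · apply Polynomial.map_injective α hinj
    have h1 : (Y.coeff 0).map α = C ainv * fB ^ m₁ := by
      have h2 := congrArg (fun P => coeff P 0) hY
      simp only [coeff_map, coe_mapRingHom] at h2
      rw [h2, coeff_C_mul, hGdef, ← map_pow, hG0]
    rw [Polynomial.map_pow, Polynomial.map_mul, map_C, h1, ← hfB, ← mul_assoc, hCa, one_mul]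
  · have hinj2 : Function.Injective (mapRingHom α) := by
      rw [coe_mapRingHom]
      exact Polynomial.map_injective α hinj
    apply Polynomial.map_injective _ hinj2
    have hdtmap : (dt A Y).map (mapRingHom α) = dt B (Y.map (mapRingHom α)) := by
      ext1 j
      rw [coeff_dt, coeff_map, coeff_map, coeff_dt, coe_mapRingHom, derivative_map]
    have h1 : (del c a Y).map (mapRingHom α) = del (α c) (α a) (Y.map (mapRingHom α)) := by
      rw [del, del, Polynomial.map_sub, Polynomial.map_mul, Polynomial.map_mul, hdtmap,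
        derivative_map, map_C, map_C, coe_mapRingHom, map_C, map_C]
    rw [h1, hY, Polynomial.map_zero, del_mul]
    have h2 : del (α c) (α a) (C (C ainv)) = 0 := by
      rw [del, dt_C, derivative_C, derivative_C]
      simp
    have h3 : del (α c) (α a) (G ^ m₁) = 0 := by
      rw [hGdef, ← map_pow, del, dt_Phi, derivative_Phi, ← hb, C_mul, C_mul]
      ring
    rw [h2, h3]
    ring

end Pool.Agent.H70IC
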