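import Mathlib
import Pool.Agent.H70IC.Cert

/-! # Propagation from a certificate -/

set_option autoImplicit false

namespace Pool.Agent.H70IC

open Polynomial

universe u v

section integ

variable {A : Type u} [CommRing A] [Algebra ℚ A]

/-- the antiderivative -/
noncomputable def integ (A : Type u) [CommRing A] [Algebra ℚ A] : A[X] →ₗ[A] A[X] :=
  Polynomial.lsum (fun i => (algebraMap ℚ A (1 / ((i : ℚ) + 1))) • Polynomial.monomial (i + 1))

theorem integ_monomial (i : ℕ) (r : A) :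
    integ A (monomial i r) = monomial (i + 1) (algebraMap ℚ A (1 / ((i : ℚ) + 1)) * r) := by
  rw [integ, Polynomial.lsum_apply, Polynomial.sum_monomial_index]
  · rw [LinearMap.smul_apply, smul_monomial, smul_eq_mul]
  · rw [map_zero]

theorem derivative_integ (z : A[X]) : derivative (integ A z) = z := by
  induction z using Polynomial.induction_on' with
  | add p q hp hq => rw [map_add, derivative_add, hp, hq]
  | monomial i r =>
    rw [integ_monomial, derivative_monomial, Nat.add_sub_cancel]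
    congr 1
    have h1 : algebraMap ℚ A (1 / ((i : ℚ) + 1)) * ((i + 1 : ℕ) : A) = 1 := by
      rw [← map_natCast (algebraMap ℚ A) (i + 1), ← map_mul]
      have : (1 / ((i : ℚ) + 1)) * ((i + 1 : ℕ) : ℚ) = 1 := by
        push_cast
        have : ((i : ℚ) + 1) ≠ 0 := by positivity
        field_simp
      rw [this, map_one]
    linear_combination r * h1

theorem integ_C_mul (r : A) (z : A[X]) : integ A (C r * z) = C r * integ A z := by
  rw [← smul_eq_C_mul, map_smul, smul_eq_C_mul]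

theorem torsion (c a : A) : ∀ (s : ℕ) (z : A[X]), C (a ^ s) * z = 0 →
    C (c ^ s) * z ∈ LinearMap.range (Dop c (C a)) := by
  intro s
  induction s with
  | zero =>
    intro z hz
    rw [pow_zero, C_1, one_mul] at hz
    rw [hz, mul_zero]
    exact Submodule.zero_mem _
  | succ s ih =>
    intro z hz
    have h1 : C (c ^ (s + 1)) * z =
        c ^ s • Dop c (C a) (integ A z) + C (c ^ s) * (C a * integ A z) := by
      rw [Dop_apply, derivative_integ, smul_eq_C_mul, pow_succ, C_mul]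
      ring
    rw [h1]
    apply Submodule.add_mem
    · exact Submodule.smul_mem _ _ ⟨_, rfl⟩
    · apply ih
      rw [← mul_assoc, ← C_mul, ← pow_succ, ← integ_C_mul, hz, map_zero]

end integ

section prop

variable {A : Type u} [CommRing A] [Algebra ℚ A]

/-- `a^l L_x(W Y^(l+n')) ∈ V₀` for all large `l`. -/
def Good (c a : A) (Y W : A[X][X]) : Prop :=
  ∀ n' : ℕ, ∃ l₀ : ℕ, ∀ l : ℕ, l₀ ≤ l →
    C (a ^ l) * Lf A[X] (W * Y ^ (l + n')) ∈ LinearMap.range (Dop c (C a))

theorem good_zero (c a : A) (Y : A[X][X]) : Good c a Y 0 := by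
  intro n'
  refine ⟨0, fun l _ => ?_⟩
  rw [zero_mul, map_zero, mul_zero]
  exact Submodule.zero_mem _

theorem good_add (c a : A) (Y W W' : A[X][X]) (h : Good c a Y W) (h' : Good c a Y W') :
    Good c a Y (W + W') := by
  intro n'
  obtain ⟨l₀, h0⟩ := h n'
  obtain ⟨l₁, h1⟩ := h' n'
  refine ⟨max l₀ l₁, fun l hl => ?_⟩
  rw [add_mul, map_add, mul_add]
  exact Submodule.add_mem _ (h0 l (by omega)) (h1 l (by omega))

theorem good_sum (c a : A) (Y : A[X][X]) {ι : Type*} (t : Finset ι) (W : ι → A[X][X])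
    (h : ∀ i ∈ t, Good c a Y (W i)) : Good c a Y (∑ i ∈ t, W i) := by
  classical
  induction t using Finset.induction_on with
  | empty => rw [Finset.sum_empty]; exact good_zero c a Y
  | insert i t hi ih =>
    rw [Finset.sum_insert hi]
    exact good_add c a Y _ _ (h i (Finset.mem_insert_self _ _))
      (ih fun j hj => h j (Finset.mem_insert_of_mem hj))

theorem good_smul (c a r : A) (Y W : A[X][X]) (h : Good c a Y W) :
    Good c a Y (C (C r) * W) := by
  intro n'
  obtain ⟨l₀, h0⟩ := h n'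
  refine ⟨l₀, fun l hl => ?_⟩
  have h1 : C (a ^ l) * Lf A[X] (C (C r) * W * Y ^ (l + n')) =
      r • (C (a ^ l) * Lf A[X] (W * Y ^ (l + n'))) := by
    rw [mul_assoc, Lf_C_mul, smul_eq_C_mul]
    ring
  rw [h1]
  exact Submodule.smul_mem _ _ (h0 l hl)

theorem good_of_pow (c a : A) (k : ℕ) (Y W : A[X][X]) (h : Good c a Y (C (C (a ^ k)) * W)) :
    Good c a Y W := by
  intro n'
  obtain ⟨l₀, h0⟩ := h (k + n')
  refine ⟨l₀ + k, fun l hl => ?_⟩
  obtain ⟨l', rfl⟩ : ∃ l', l = l' + k := ⟨l - k, by omega⟩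
  have h1 : C (a ^ (l' + k)) * Lf A[X] (W * Y ^ (l' + k + n')) =
      C (a ^ l') * Lf A[X] (C (C (a ^ k)) * W * Y ^ (l' + (k + n'))) := by
    rw [mul_assoc, Lf_C_mul, pow_add, C_mul, ← add_assoc]
    ring
  rw [h1]
  exact h0 l' (by omega)

/-- coefficients in an ideal -/
def InI (I : Ideal A) (W : A[X][X]) : Prop := ∀ j l, (W.coeff j).coeff l ∈ I

theorem inI_mul {I J : Ideal A} {W W' : A[X][X]} (h : InI I W) (h' : InI J W') :
    InI (I * J) (W * W') := by
  intro j l
  rw [coeff_mul, finsetSum_coeff]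
  apply Ideal.sum_mem
  intro x _
  rw [coeff_mul]
  apply Ideal.sum_mem
  intro y _
  exact Ideal.mul_mem_mul (h _ _) (h' _ _)

theorem inI_top (W : A[X][X]) : InI (⊤ : Ideal A) W := fun _ _ => Submodule.mem_top

theorem inI_CC {I : Ideal A} {w : A} (hw : w ∈ I) : InI I (C (C w)) := by
  intro j l
  rw [coeff_C]
  split_ifs
  · rw [coeff_C]
    split_ifs
    · exact hw
    · exact I.zero_mem
  · rw [coeff_zero]
    exact I.zero_mem

theorem inI_mul_right {I : Ideal A} {W W' : A[X][X]} (h : InI I W) : InI I (W * W') := by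
  have := inI_mul h (inI_top W')
  rwa [Ideal.mul_top] at this

/-- The special variable `a t + c x`. -/
noncomputable def Xt (c a : A) : A[X][X] := C (C a * X) + C (C c) * X

theorem del_Xt (c a : A) : del c a (Xt c a) = 0 := by
  rw [del, Xt, map_add, dt_mul, dt_C, dt_C, dt_X, derivative_add, derivative_C,
    derivative_C_mul, derivative_X, derivative_C_mul, derivative_X, derivative_C]
  simp
  ring

theorem good_special (c a : A) (Y : A[X][X]) (I : Ideal A)
    (J : Ideal A) (hY : InI J (del c a Y))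
    (hstep : ∀ W, InI (I * J) W → Good c a Y W)
    (w : A) (hw : w ∈ I) (e i : ℕ) : Good c a Y (C (C w) * Xt c a ^ e * X ^ i) := by
  intro n'
  obtain ⟨l₀, h0⟩ := hstep (C (C w) * Xt c a ^ e * X ^ (i + 1) * del c a Y)
    (inI_mul (inI_mul_right (inI_mul_right (inI_CC hw))) hY) n'
  refine ⟨l₀ + 1, fun l hl => ?_⟩
  obtain ⟨l', rfl⟩ : ∃ l', l = l' + 1 := ⟨l - 1, by omega⟩
  set Z : A[X][X] := C (C w) * Xt c a ^ e * X ^ (i + 1) * Y ^ (l' + 1 + n') with hZ
  have hZ0 : Z.coeff 0 = 0 := by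
    rw [hZ, coeff_zero_eq_eval_zero]
    simp
  have hdX : del c a (X ^ (i + 1) : A[X][X]) = -(C (C a) * (((i : A[X][X]) + 1) * X ^ i)) := by
    rw [del, dt_pow, dt_X, derivative_X_pow]
    simp
  have hdC : del c a (C (C w) : A[X][X]) = 0 := by
    rw [del, dt_C, derivative_C, derivative_C]
    simp
  have hdel : del c a Z = -(C (C a) * (((i : A[X][X]) + 1) * (C (C w) * Xt c a ^ e * X ^ i *
        Y ^ (l' + 1 + n')))) +
      ((l' + 1 + n' : ℕ) : A[X][X]) * ((C (C w) * Xt c a ^ e * X ^ (i + 1) * del c a Y) *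
        Y ^ (l' + n')) := by
    have h1 : del c a (Y ^ (l' + 1 + n')) =
        ((l' + 1 + n' : ℕ) : A[X][X]) * Y ^ (l' + n') * del c a Y := by
      rw [del_pow]
      congr 2
      congr 1
      omega
    have h2 : del c a (Xt c a ^ e) = 0 := by rw [del_pow, del_Xt, mul_zero]
    rw [hZ, del_mul, del_mul, del_mul, h1, h2, hdX, hdC]
    ring
  have hkey := Dop_Lf c a Z
  rw [hZ0, mul_zero, sub_zero, hdel, map_add, map_neg, Lf_C_mul] at hkey
  have hi1 : ((i : A[X][X]) + 1) = C (((i : A[X]) + 1)) := by simp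
  have hl1 : ((l' + 1 + n' : ℕ) : A[X][X]) = C ((l' + 1 + n' : ℕ) : A[X]) := by simp
  rw [hi1, hl1, Lf_C_mul, Lf_C_mul] at hkey
  -- divide by `i + 1`
  have hq : algebraMap ℚ A (1 / ((i : ℚ) + 1)) * ((i : A) + 1) = 1 := by
    have h3 : ((i : A) + 1) = algebraMap ℚ A ((i : ℚ) + 1) := by simp
    rw [h3, ← map_mul]
    have : (1 / ((i : ℚ) + 1)) * ((i : ℚ) + 1) = 1 := by
      have : ((i : ℚ) + 1) ≠ 0 := by positivity
      field_simp
    rw [this, map_one]
  set ρ := algebraMap ℚ A (1 / ((i : ℚ) + 1)) with hρ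
  have hCq : C ρ * ((i : A[X]) + 1) = 1 := by
    have : ((i : A[X]) + 1) = C ((i : A) + 1) := by simp
    rw [this, ← C_mul, hq, C_1]
  set L1 := Lf A[X] (C (C w) * Xt c a ^ e * X ^ i * Y ^ (l' + 1 + n')) with hL1
  set L2 := Lf A[X] (C (C w) * Xt c a ^ e * X ^ (i + 1) * del c a Y * Y ^ (l' + n')) with hL2
  have hfin : C (a ^ (l' + 1)) * L1 =
      (ρ * ((l' + 1 + n' : ℕ) : A)) • (C (a ^ l') * L2) -
        (ρ * a ^ l') • Dop c (C a) (Lf A[X] Z) := by
    rw [hkey, smul_eq_C_mul, smul_eq_C_mul, C_mul, C_mul, pow_succ, C_mul, map_natCast]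
    linear_combination (-(C (a ^ l') * C a * L1)) * hCq
  rw [hfin]
  exact Submodule.sub_mem _ (Submodule.smul_mem _ _ (h0 l' (by omega)))
    (Submodule.smul_mem _ _ ⟨_, rfl⟩)

theorem good_step (c a : A) (Y : A[X][X]) (I J : Ideal A) (hY : InI J (del c a Y))
    (hstep : ∀ W, InI (I * J) W → Good c a Y W) (W : A[X][X]) (hW : InI I W) :
    Good c a Y W := by
  obtain ⟨n, hn⟩ := exists_bound W
  rw [eq_Gen W hn, Gen]
  apply good_sum
  intro s _
  set w := (W.coeff s.1).coeff s.2 with hw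
  have hwI : w ∈ I := hW _ _
  apply good_of_pow c a (s.2 : ℕ)
  have h1 : C (C (a ^ (s.2 : ℕ))) * (monomial (s.1 : ℕ) (monomial (s.2 : ℕ) w) : A[X][X]) =
      ∑ e ∈ Finset.range ((s.2 : ℕ) + 1), C (C ((-c) ^ ((s.2 : ℕ) - e) *
        (((s.2 : ℕ).choose e : ℕ) : A))) *
        (C (C w) * Xt c a ^ e * X ^ ((s.1 : ℕ) + ((s.2 : ℕ) - e))) := by
    have h2 : (C (C a * X) : A[X][X]) = Xt c a + -(C (C c) * X) := by
      rw [Xt]; ring
    have h3 : C (C (a ^ (s.2 : ℕ))) * (monomial (s.1 : ℕ) (monomial (s.2 : ℕ) w) : A[X][X]) =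
        C (C w) * (C (C a * X)) ^ (s.2 : ℕ) * X ^ (s.1 : ℕ) := by
      rw [← C_mul_X_pow_eq_monomial, ← C_mul_X_pow_eq_monomial, C_mul, C_mul, mul_pow, C_pow, C_pow,
        C_pow]
      ring
    rw [h3, h2, add_pow, Finset.mul_sum, Finset.sum_mul]
    refine Finset.sum_congr rfl fun e _ => ?_
    have h5 : (-(C (C c) * X) : A[X][X]) = C (C (-c)) * X := by
      rw [C_neg, C_neg]
      ring
    rw [h5, mul_pow, ← C_pow, ← C_pow, pow_add, C_mul, C_mul, map_natCast, map_natCast]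
    ring
  rw [h1]
  apply good_sum
  intro e _
  apply good_smul
  exact good_special c a Y I J hY hstep w hwI e _

theorem good_all (c a : A) (Y : A[X][X]) (J : Ideal A) (hY : InI J (del c a Y)) (s : ℕ)
    (hs : ∀ z ∈ J ^ s, a ^ s * z = 0) (W : A[X][X]) : Good c a Y W := by
  have hmain : ∀ j : ℕ, j ≤ s → ∀ W, InI (J ^ (s - j)) W → Good c a Y W := by
    intro j
    induction j with
    | zero =>
      intro _ W hW n'
      refine ⟨s, fun l hl => ?_⟩
      rw [Nat.sub_zero] at hW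
      have h0 : C (C (a ^ l)) * W = 0 := by
        ext j l2
        rw [coeff_C_mul, coeff_C_mul, coeff_zero, coeff_zero]
        obtain ⟨l', rfl⟩ : ∃ l', l = l' + s := ⟨l - s, by omega⟩
        rw [pow_add, mul_assoc, hs _ (hW j l2), mul_zero]
      rw [← Lf_C_mul, ← mul_assoc, h0, zero_mul, map_zero]
      exact Submodule.zero_mem _
    | succ j ih =>
      intro hj W hW
      apply good_step c a Y (J ^ (s - (j + 1))) J hY _ W hW
      intro W' hW'
      apply ih (by omega)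
      rw [← pow_succ, show s - (j + 1) + 1 = s - j by omega] at hW'
      exact hW'
  apply hmain s le_rfl
  rw [Nat.sub_self, pow_zero, Ideal.one_eq_top]
  exact inI_top W

theorem prop_F₀ (c a : A) (Y : A[X][X]) (J : Ideal A) (hY : InI J (del c a Y)) (s : ℕ)
    (hs : ∀ z ∈ J ^ s, a ^ s * z = 0) (g : A[X]) :
    ∃ l₀ : ℕ, ∀ l : ℕ, l₀ ≤ l → g * (C a * Y.coeff 0) ^ l ∈ LinearMap.range (Dop c (C a)) := by
  obtain ⟨l₀, h0⟩ := good_all c a Y J hY s hs (C g) 0
  obtain ⟨l₁, h1⟩ := good_all c a Y J hY s hs (C g * derivative Y) 0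
  refine ⟨max l₀ l₁ + 1, fun l hl => ?_⟩
  obtain ⟨l', rfl⟩ : ∃ l', l = l' + 1 := ⟨l - 1, by omega⟩
  have h2 := h0 (l' + 1) (by omega)
  have h3 := h1 l' (by omega)
  rw [add_zero] at h2 h3
  have h4 : g * (C a * Y.coeff 0) ^ (l' + 1) = C (a ^ (l' + 1)) * Lf A[X] (C g * Y ^ (l' + 1)) -
      (a * ((l' + 1 : ℕ) : A)) • (C (a ^ l') * Lf A[X] (C g * derivative Y * Y ^ l')) := by
    have h5 := Lf_derivative (C g * Y ^ (l' + 1))
    have h6 : (C g * Y ^ (l' + 1)).coeff 0 = g * (Y.coeff 0) ^ (l' + 1) := by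
      rw [coeff_C_mul, coeff_zero_eq_eval_zero, eval_pow, ← coeff_zero_eq_eval_zero]
    have h7 : derivative (C g * Y ^ (l' + 1)) =
        C ((l' + 1 : ℕ) : A[X]) * (C g * derivative Y * Y ^ l') := by
      rw [derivative_C_mul, derivative_pow, Nat.add_sub_cancel]
      ring
    rw [h6, h7, Lf_C_mul] at h5
    rw [smul_eq_C_mul, C_mul, map_natCast, mul_pow, ← C_pow, pow_succ a, C_mul]
    linear_combination (C (a ^ l') * C a) * h5
  rw [h4]
  exact Submodule.sub_mem _ h2 (Submodule.smul_mem _ _ h3)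

theorem cert_imp (c a : A) (f : A[X]) (m₁ : ℕ) (hm₁ : 1 ≤ m₁) (Y : A[X][X]) (J : Ideal A)
    (hY : InI J (del c a Y)) (hf : ∀ l, (f ^ m₁ - C a * Y.coeff 0).coeff l ∈ J) (s : ℕ)
    (hs : ∀ z ∈ J ^ s, a ^ s * z = 0) (g : A[X]) :
    ∃ N : ℕ, ∀ m : ℕ, N ≤ m → C (c ^ s) * (g * f ^ m) ∈ LinearMap.range (Dop c (C a)) := by
  classical
  set F₀ := C a * Y.coeff 0 with hF₀
  set ν := f ^ m₁ - F₀ with hν
  have hν' : f ^ m₁ = ν + F₀ := by rw [hν]; ring
  -- coefficients of powers of `ν`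
  have hνpow : ∀ i l, (ν ^ i).coeff l ∈ J ^ i := by
    intro i
    induction i with
    | zero => intro l; rw [pow_zero, pow_zero, Ideal.one_eq_top]; exact Submodule.mem_top
    | succ i ih =>
      intro l
      rw [pow_succ, pow_succ, coeff_mul]
      apply Ideal.sum_mem
      intro x _
      exact Ideal.mul_mem_mul (ih _) (hf _)
  have hνtors : ∀ i, s ≤ i → C (a ^ s) * ν ^ i = 0 := by
    intro i hi
    ext l
    rw [coeff_C_mul, coeff_zero]
    exact hs _ (Ideal.pow_le_pow_right hi (hνpow i l))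
  -- powers of `f ^ m₁`
  have hpow : ∀ g : A[X], ∃ l₀ : ℕ, ∀ l : ℕ, l₀ ≤ l →
      C (c ^ s) * (g * (f ^ m₁) ^ l) ∈ LinearMap.range (Dop c (C a)) := by
    intro g
    choose l₀ hl₀ using fun i : ℕ => prop_F₀ c a Y J hY s hs (g * ν ^ i)
    refine ⟨∑ i ∈ Finset.range s, l₀ i + s, fun l hl => ?_⟩
    rw [hν', add_pow, Finset.mul_sum, Finset.mul_sum]
    apply Submodule.sum_mem
    intro i hi
    rw [Finset.mem_range] at hi
    by_cases his : i < s
    · have h1 : l₀ i ≤ ∑ i ∈ Finset.range s, l₀ i :=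
        Finset.single_le_sum (f := l₀) (fun _ _ => Nat.zero_le _) (Finset.mem_range.2 his)
      have h2 := hl₀ i (l - i) (by omega)
      have h3 : C (c ^ s) * (g * (ν ^ i * F₀ ^ (l - i) * ((l.choose i : ℕ) : A[X]))) =
          (c ^ s * ((l.choose i : ℕ) : A)) • (g * ν ^ i * (C a * Y.coeff 0) ^ (l - i)) := by
        rw [smul_eq_C_mul, C_mul, map_natCast, hF₀]
        ring
      rw [h3]
      exact Submodule.smul_mem _ _ h2
    · apply torsion
      have h1 := hνtors i (not_lt.1 his)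
      linear_combination (g * F₀ ^ (l - i) * ((l.choose i : ℕ) : A[X])) * h1
  choose l₀ hl₀ using fun i : ℕ => hpow (g * f ^ i)
  refine ⟨m₁ * (∑ i ∈ Finset.range m₁, l₀ i + 1), fun m hm => ?_⟩
  have hmod : m % m₁ < m₁ := Nat.mod_lt _ hm₁
  have h1 : l₀ (m % m₁) ≤ ∑ i ∈ Finset.range m₁, l₀ i :=
    Finset.single_le_sum (f := l₀) (fun _ _ => Nat.zero_le _) (Finset.mem_range.2 hmod)
  have h2 : ∑ i ∈ Finset.range m₁, l₀ i + 1 ≤ m / m₁ := by
    rw [Nat.le_div_iff_mul_le hm₁, mul_comm]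
    exact hm
  have h3 := hl₀ (m % m₁) (m / m₁) (by omega)
  have h4 : g * f ^ m = g * f ^ (m % m₁) * (f ^ m₁) ^ (m / m₁) := by
    rw [← pow_mul, mul_assoc, ← pow_add, Nat.mod_add_div]
  rw [h4]
  exact h3

end prop

end Pool.Agent.H70IC
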