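import Mathlib
import Pool.Agent.H70IC.Prop

/-! # The one-dimensional image conjecture -/

set_option autoImplicit false

namespace Pool.Agent.H70IC

open Polynomial

universe u v

/-- If `a` is a constant non-zero-divisor there is a certificate. -/
theorem certificate (A : Type u) [CommRing A] [Algebra ℚ A] (a c : A)
    (ha : a ∈ nonZeroDivisors A) (f : A[X])
    (h : ∀ m : ℕ, 1 ≤ m → ∃ u, Dop c (C a) u = f ^ m) :
    ∃ m₁ : ℕ, 1 ≤ m₁ ∧ ∃ Y : A[X][X], f ^ m₁ = C a * Y.coeff 0 ∧ del c a Y = 0 := by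
  have hle : Submonoid.powers a ≤ nonZeroDivisors A := by
    rw [Submonoid.powers_le]
    exact ha
  have hinj : Function.Injective (algebraMap A (Localization.Away a)) :=
    IsLocalization.injective _ hle
  have hu : algebraMap A (Localization.Away a) a * IsLocalization.Away.invSelf a = 1 :=
    IsLocalization.Away.mul_invSelf a
  refine certificate_loc A (Localization.Away a) hinj a c
    (IsLocalization.Away.invSelf a * algebraMap A _ c) (IsLocalization.Away.invSelf a) ?_ hu ?_ f h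
  · rw [← mul_assoc, hu, one_mul]
  · intro z
    obtain ⟨k, v, hv⟩ := IsLocalization.Away.surj a z
    exact ⟨k, v, by rw [← hv, mul_comm]⟩

/-- the ideal of the elements `z` with `a z` nilpotent -/
def rIdeal (A : Type u) [CommRing A] (a : A) : Ideal A where
  carrier := {z | a * z ∈ nilradical A}
  add_mem' := by
    intro x y hx hy
    change a * (x + y) ∈ nilradical A
    rw [mul_add]
    exact Ideal.add_mem _ hx hy
  zero_mem' := by
    change a * 0 ∈ nilradical A
    rw [mul_zero]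
    exact Ideal.zero_mem _
  smul_mem' := by
    intro r x hx
    change a * (r * x) ∈ nilradical A
    rw [mul_left_comm]
    exact Ideal.mul_mem_left _ _ hx

theorem mem_rIdeal {A : Type u} [CommRing A] (a z : A) : z ∈ rIdeal A a ↔ IsNilpotent (a * z) := by
  change a * z ∈ nilradical A ↔ _
  exact mem_nilradical

theorem isNilpotent_integ {A : Type u} [CommRing A] [Algebra ℚ A] (b : A[X]) (hb : IsNilpotent b) :
    IsNilpotent (integ A b) := by
  rw [Polynomial.isNilpotent_iff] at hb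
  rw [integ, Polynomial.lsum_apply, Polynomial.sum]
  apply isNilpotent_sum
  intro i _
  rw [LinearMap.smul_apply]
  obtain ⟨n, hn⟩ := hb i
  rw [smul_monomial, smul_eq_mul, ← C_mul_X_pow_eq_monomial, C_mul]
  refine ⟨n, ?_⟩
  rw [mul_pow, mul_pow, ← C_pow (a := b.coeff i), hn, C_0, mul_zero, zero_mul]

theorem main_nilp (A : Type u) [CommRing A] [Algebra ℚ A] (c : A) (a f : A[X])
    (hnil : ∀ i, 1 ≤ i → IsNilpotent (a.coeff i))
    (h : ∀ m : ℕ, 1 ≤ m → ∃ u, Dop c a u = f ^ m) :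
    ∃ K : ℕ, ∀ g : A[X], ∃ N : ℕ, ∀ m : ℕ, N ≤ m →
      C (c ^ K) * (g * f ^ m) ∈ LinearMap.range (Dop c a) := by
  classical
  set a₀ := a.coeff 0 with ha₀
  set 𝔯 := rIdeal A a₀ with h𝔯
  set π := Ideal.Quotient.mk 𝔯 with hπ
  have hπs : Function.Surjective π := Ideal.Quotient.mk_surjective
  have hamap : a.map π = C (π a₀) := by
    ext i
    rw [coeff_map, coeff_C]
    split_ifs with hi
    · rw [hi]
    · rw [Ideal.Quotient.eq_zero_iff_mem, h𝔯, mem_rIdeal]
      exact (Commute.all _ _).isNilpotent_mul_left (hnil i (by omega))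
  have hnzd : π a₀ ∈ nonZeroDivisors (A ⧸ 𝔯) := by
    rw [mem_nonZeroDivisors_iff_right]
    intro z hz
    obtain ⟨z, rfl⟩ := hπs z
    rw [← map_mul, Ideal.Quotient.eq_zero_iff_mem, h𝔯, mem_rIdeal] at hz
    rw [Ideal.Quotient.eq_zero_iff_mem, h𝔯, mem_rIdeal]
    have h1 : IsNilpotent ((a₀ * z) ^ 2) := by
      have : (a₀ * z) ^ 2 = (a₀ * (z * a₀)) * z := by ring
      rw [this]
      exact (Commute.all _ _).isNilpotent_mul_right hz
    obtain ⟨k, hk⟩ := h1
    exact ⟨2 * k, by rw [pow_mul]; exact hk⟩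
  obtain ⟨m₁, hm₁, Y₁, hY₁, hdel₁⟩ := certificate (A ⧸ 𝔯) (π a₀) (π c) hnzd (f.map π) (by
    intro m hm
    obtain ⟨u, hu⟩ := h m hm
    refine ⟨u.map π, ?_⟩
    rw [← hamap, ← Dop_map, hu, Polynomial.map_pow])
  obtain ⟨Y, hY⟩ := exists_lift2 π Y₁ (fun j l => hπs _)
  -- the errors
  have herr0 : ∀ l, (f ^ m₁ - C a₀ * Y.coeff 0).coeff l ∈ 𝔯 := by
    intro l
    rw [← Ideal.Quotient.eq_zero_iff_mem, ← hπ, ← coeff_map, Polynomial.map_sub,
      Polynomial.map_pow, Polynomial.map_mul, map_C, hY₁]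
    have : (Y.coeff 0).map π = Y₁.coeff 0 := by
      rw [← hY, coeff_map, coe_mapRingHom]
    rw [this, sub_self, coeff_zero]
  have hdtmap : (dt A Y).map (mapRingHom π) = dt (A ⧸ 𝔯) (Y.map (mapRingHom π)) := by
    ext1 j
    rw [coeff_dt, coeff_map, coeff_map, coeff_dt, coe_mapRingHom, derivative_map]
  have hdelmap : (del c a₀ Y).map (mapRingHom π) = 0 := by
    rw [del, Polynomial.map_sub, Polynomial.map_mul, Polynomial.map_mul, hdtmap,
        ← derivative_map, map_C, map_C, hY, coe_mapRingHom, map_C, map_C]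
    exact hdel₁
  have herr1 : ∀ j l, ((del c a₀ Y).coeff j).coeff l ∈ 𝔯 := by
    intro j l
    have h1 := congrArg (fun P => (coeff P j).coeff l) hdelmap
    simp only [coeff_map, coe_mapRingHom, coeff_zero] at h1
    exact Ideal.Quotient.eq_zero_iff_mem.1 h1
  -- the finitely generated ideal of the errors
  obtain ⟨n, hn⟩ := exists_bound (del c a₀ Y)
  set T : Finset A := ((Finset.range n ×ˢ Finset.range n).image
      (fun s : ℕ × ℕ => ((del c a₀ Y).coeff s.1).coeff s.2)) ∪
    ((Finset.range ((f ^ m₁ - C a₀ * Y.coeff 0).natDegree + 1)).image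
      (fun l => (f ^ m₁ - C a₀ * Y.coeff 0).coeff l)) with hT
  set J : Ideal A := Ideal.span (T : Set A) with hJ
  have hJle : J ≤ 𝔯 := by
    rw [hJ, Ideal.span_le]
    intro x hx
    rw [hT, Finset.mem_coe, Finset.mem_union, Finset.mem_image, Finset.mem_image] at hx
    rcases hx with ⟨s, _, rfl⟩ | ⟨l, _, rfl⟩
    · exact herr1 _ _
    · exact herr0 _
  have hJ1 : InI J (del c a₀ Y) := by
    intro j l
    by_cases hjl : n ≤ j ∨ n ≤ l
    · rw [hn j l hjl]
      exact J.zero_mem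
    · push Not at hjl
      apply Ideal.subset_span
      rw [hT, Finset.mem_coe, Finset.mem_union, Finset.mem_image]
      left
      exact ⟨(j, l), by simp [hjl.1, hjl.2], rfl⟩
  have hJ0 : ∀ l, (f ^ m₁ - C a₀ * Y.coeff 0).coeff l ∈ J := by
    intro l
    by_cases hl : l < (f ^ m₁ - C a₀ * Y.coeff 0).natDegree + 1
    · apply Ideal.subset_span
      rw [hT, Finset.mem_coe, Finset.mem_union, Finset.mem_image, Finset.mem_image]
      right
      exact ⟨l, Finset.mem_range.2 hl, rfl⟩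
    · rw [coeff_eq_zero_of_natDegree_lt (by omega)]
      exact J.zero_mem
  have hnilI : IsNilpotent (Ideal.span {a₀} * J) := by
    rw [Ideal.FG.isNilpotent_iff_le_nilradical]
    · rw [Ideal.span_singleton_mul_le_iff]
      intro z hz
      exact hJle hz
    · exact Submodule.FG.mul ⟨{a₀}, by simp⟩ ⟨T, rfl⟩
  obtain ⟨s, hs⟩ := hnilI
  have hs' : ∀ z ∈ J ^ s, a₀ ^ s * z = 0 := by
    intro z hz
    have h1 : a₀ ^ s * z ∈ (Ideal.span {a₀} * J) ^ s := by
      rw [mul_pow, Ideal.span_singleton_pow]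
      exact Ideal.mul_mem_mul (Ideal.mem_span_singleton_self _) hz
    rw [hs] at h1
    simpa using h1
  have hconst := cert_imp c a₀ f m₁ hm₁ Y J hJ1 hJ0 s hs'
  -- pass from `a₀` to `a`
  set b := a - C a₀ with hb
  have hbnil : IsNilpotent b := by
    rw [Polynomial.isNilpotent_iff]
    intro i
    rw [hb, coeff_sub, coeff_C]
    split_ifs with hi
    · rw [hi, sub_self]
      exact IsNilpotent.zero
    · rw [sub_zero]
      exact hnil i (by omega)
  set P := integ A b with hP
  have hP' : derivative P = b := derivative_integ b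
  obtain ⟨n₁, hn₁⟩ := isNilpotent_integ b hbnil
  rw [← hP] at hn₁
  set E : A[X] := ∑ i ∈ Finset.range (n₁ + 1), C (c ^ (n₁ - i) *
    algebraMap ℚ A (1 / (i.factorial : ℚ))) * P ^ i with hE
  have hEc : C c * derivative E = b * E := by
    rw [hE, derivative_sum, Finset.mul_sum, Finset.sum_range_succ', Finset.sum_range_succ, hn₁]
    have h0 : C c * derivative (C (c ^ (n₁ - 0) * algebraMap ℚ A (1 / ((0 : ℕ).factorial : ℚ))) *
        P ^ 0) = 0 := by rw [pow_zero, mul_one, derivative_C, mul_zero]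
    rw [h0, add_zero, mul_zero, add_zero, Finset.mul_sum]
    refine Finset.sum_congr rfl fun i hi => ?_
    rw [Finset.mem_range] at hi
    rw [derivative_C_mul, derivative_pow, hP', Nat.add_sub_cancel]
    have h1 : c * (c ^ (n₁ - (i + 1)) * algebraMap ℚ A (1 / ((i + 1).factorial : ℚ))) *
        ((i + 1 : ℕ) : A) = c ^ (n₁ - i) * algebraMap ℚ A (1 / (i.factorial : ℚ)) := by
      have h2 : algebraMap ℚ A (1 / ((i + 1).factorial : ℚ)) * ((i + 1 : ℕ) : A) =
          algebraMap ℚ A (1 / (i.factorial : ℚ)) := by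
        rw [← map_natCast (algebraMap ℚ A) (i + 1), ← map_mul]
        congr 1
        rw [Nat.factorial_succ]
        push_cast
        have h3 : ((i : ℚ) + 1) ≠ 0 := by positivity
        have h4 : (i.factorial : ℚ) ≠ 0 := by exact_mod_cast i.factorial_ne_zero
        field_simp
      have h5 : c ^ (n₁ - i) = c * c ^ (n₁ - (i + 1)) := by
        rw [← pow_succ']
        congr 1
        omega
      rw [h5, ← h2]
      ring
    rw [← h1]
    simp only [C_mul, C_eq_natCast]
    ring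
  have hED : ∀ w, Dop c a (E * w) = E * Dop c (C a₀) w := by
    intro w
    rw [Dop_apply, Dop_apply, derivative_mul]
    have h1 : a = C a₀ + b := by rw [hb]; ring
    rw [h1]
    linear_combination w * hEc
  -- `E` divides a power of `c`
  have hEdvd : ∃ k G, C (c ^ k) = E * G := by
    have h1 : ∃ η : A[X], IsNilpotent η ∧ E - η = C (c ^ n₁) := by
      refine ⟨∑ i ∈ Finset.range n₁, C (c ^ (n₁ - (i + 1)) *
        algebraMap ℚ A (1 / ((i + 1).factorial : ℚ))) * P ^ (i + 1), ?_, ?_⟩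
      · apply isNilpotent_sum
        intro i _
        apply (Commute.all _ _).isNilpotent_mul_left
        refine ⟨n₁, ?_⟩
        rw [← pow_mul, mul_comm, pow_mul, hn₁, zero_pow (Nat.succ_ne_zero i)]
      · have h0 : C (c ^ (n₁ - 0) * algebraMap ℚ A (1 / ((0 : ℕ).factorial : ℚ))) * P ^ 0 =
            C (c ^ n₁) := by
          rw [Nat.sub_zero, Nat.factorial_zero, Nat.cast_one, div_one, map_one, mul_one, pow_zero,
            mul_one]
        rw [hE, Finset.sum_range_succ', h0, add_sub_cancel_left]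
    obtain ⟨η, ⟨k, hk⟩, hη⟩ := h1
    have h2 : E ∣ (E - η) ^ k - (-η) ^ k := by
      have := sub_dvd_pow_sub_pow (E - η) (-η) k
      rwa [show E - η - -η = E by ring] at this
    rw [neg_pow, hk, mul_zero, sub_zero, hη, ← C_pow, ← pow_mul] at h2
    obtain ⟨G, hG⟩ := h2
    exact ⟨n₁ * k, G, hG⟩
  obtain ⟨k, G, hG⟩ := hEdvd
  refine ⟨k + s, fun g => ?_⟩
  obtain ⟨N, hN⟩ := hconst (G * g)
  refine ⟨N, fun m hm => ?_⟩
  obtain ⟨w, hw⟩ := hN m hm
  refine ⟨E * w, ?_⟩
  rw [hED, hw, pow_add, C_mul, hG]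
  ring

theorem drop_c (A : Type u) [CommRing A] (c : A) (a f : A[X]) (u₁ : A[X])
    (hu₁ : Dop c a u₁ = f) : ∀ K : ℕ,
    (∀ g : A[X], ∃ N : ℕ, ∀ m : ℕ, N ≤ m →
      C (c ^ K) * (g * f ^ m) ∈ LinearMap.range (Dop c a)) →
    ∀ g : A[X], ∃ N : ℕ, ∀ m : ℕ, N ≤ m → g * f ^ m ∈ LinearMap.range (Dop c a) := by
  intro K
  induction K with
  | zero =>
    intro h g
    obtain ⟨N, hN⟩ := h g
    refine ⟨N, fun m hm => ?_⟩
    have := hN m hm
    rwa [pow_zero, C_1, one_mul] at this
  | succ K ih =>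
    intro h
    apply ih
    -- multiples of `a`
    have ha : ∀ g : A[X], ∃ N : ℕ, ∀ m : ℕ, N ≤ m →
        a * (C (c ^ K) * (g * f ^ m)) ∈ LinearMap.range (Dop c a) := by
      intro g
      obtain ⟨N₁, h1⟩ := h (derivative g)
      obtain ⟨N₂, h2⟩ := h (g * derivative f)
      refine ⟨max N₁ N₂ + 1, fun m hm => ?_⟩
      obtain ⟨m, rfl⟩ : ∃ m', m = m' + 1 := ⟨m - 1, by omega⟩
      have h3 := h1 (m + 1) (by omega)
      have h4 := h2 m (by omega)
      have h5 : a * (C (c ^ K) * (g * f ^ (m + 1))) =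
          C (c ^ (K + 1)) * (derivative g * f ^ (m + 1)) +
          (((m + 1 : ℕ) : A)) • (C (c ^ (K + 1)) * (g * derivative f * f ^ m)) -
          Dop c a (C (c ^ K) * (g * f ^ (m + 1))) := by
        rw [Dop_apply, derivative_C_mul, derivative_mul, derivative_pow, Nat.add_sub_cancel,
          smul_eq_C_mul, pow_succ c, C_mul]
        ring
      rw [h5]
      exact Submodule.sub_mem _ (Submodule.add_mem _ h3 (Submodule.smul_mem _ _ h4)) ⟨_, rfl⟩
    intro g
    obtain ⟨N₁, h1⟩ := h (g * derivative u₁)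
    obtain ⟨N₂, h2⟩ := ha (g * u₁)
    refine ⟨max N₁ N₂ + 1, fun m hm => ?_⟩
    obtain ⟨m, rfl⟩ : ∃ m', m = m' + 1 := ⟨m - 1, by omega⟩
    have h3 := h1 m (by omega)
    have h4 := h2 m (by omega)
    have h5 : C (c ^ K) * (g * f ^ (m + 1)) =
        C (c ^ (K + 1)) * (g * derivative u₁ * f ^ m) -
          a * (C (c ^ K) * (g * u₁ * f ^ m)) := by
      have h6 : f ^ (m + 1) = (C c * derivative u₁ - a * u₁) * f ^ m := by
        rw [← Dop_apply, hu₁, pow_succ']
      rw [h6, pow_succ c, C_mul]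
      ring
    rw [h5]
    exact Submodule.sub_mem _ h3 h4

theorem isNilpotent_of_image (A : Type u) [CommRing A] [Algebra ℚ A] (c : A) (a f : A[X])
    (h : ∀ m : ℕ, 1 ≤ m → ∃ u, Dop c a u = f ^ m) (i : ℕ) (hi : 1 ≤ i) :
    IsNilpotent (C (c * a.coeff i) * f) := by
  rw [Polynomial.isNilpotent_iff]
  intro k
  rw [coeff_C_mul, nilpotent_iff_mem_prime]
  intro 𝔓 h𝔓
  by_contra hcon
  set K := FractionRing (A ⧸ 𝔓)
  set φ : A →+* K := (algebraMap (A ⧸ 𝔓) K).comp (Ideal.Quotient.mk 𝔓) with hφ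
  have : CharZero (A ⧸ 𝔓) := algebraRat.charZero _
  have hinj : Function.Injective (algebraMap (A ⧸ 𝔓) K) := IsFractionRing.injective _ _
  have : CharZero K := charZero_of_injective_algebraMap hinj
  have hφ0 : φ (c * a.coeff i * f.coeff k) ≠ 0 := by
    intro h0
    apply hcon
    rw [hφ, RingHom.comp_apply, map_eq_zero_iff _ hinj, Ideal.Quotient.eq_zero_iff_mem] at h0
    exact h0
  rw [map_mul, map_mul] at hφ0
  have h1 : φ c ≠ 0 := fun h0 => hφ0 (by rw [h0]; ring)
  have h2 : φ (a.coeff i) ≠ 0 := fun h0 => hφ0 (by rw [h0]; ring)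
  have h3 : φ (f.coeff k) ≠ 0 := fun h0 => hφ0 (by rw [h0]; ring)
  have h4 := image_field_c K (φ c) h1 (a.map φ) (f.map φ) i hi (by rw [coeff_map]; exact h2) (by
    intro m hm
    obtain ⟨u, hu⟩ := h m hm
    refine ⟨u.map φ, ?_⟩
    rw [← Polynomial.map_pow, ← hu, Dop_map, Dop_apply])
  apply h3
  rw [← coeff_map, h4, coeff_zero]

/-- The annihilator of an element. -/
def annI (A : Type u) [CommRing A] (z : A) : Ideal A where
  carrier := {y | z * y = 0}
  add_mem' := by
    intro x y hx hy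
    change z * (x + y) = 0
    change z * x = 0 at hx
    change z * y = 0 at hy
    rw [mul_add, hx, hy, add_zero]
  zero_mem' := mul_zero z
  smul_mem' := by
    intro r x hx
    change z * (r * x) = 0
    change z * x = 0 at hx
    rw [mul_left_comm, hx, mul_zero]

theorem mem_annI {A : Type u} [CommRing A] (z y : A) : y ∈ annI A z ↔ z * y = 0 := Iff.rfl

/-- The one-dimensional image theorem. -/
theorem main (A : Type u) [CommRing A] [Algebra ℚ A] (c : A) (a f : A[X])
    (h : ∀ m : ℕ, 1 ≤ m → ∃ u, Dop c a u = f ^ m) (g : A[X]) :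
    ∃ N : ℕ, ∀ m : ℕ, N ≤ m → g * f ^ m ∈ LinearMap.range (Dop c a) := by
  classical
  obtain ⟨u₁, hu₁⟩ := h 1 le_rfl
  rw [pow_one] at hu₁
  -- a common exponent
  choose s hs using fun i : ℕ => isNilpotent_of_image A c a f h (i + 1) (by omega)
  set K := ∑ i ∈ Finset.range a.natDegree, s i + 1 with hK
  have hKs : ∀ i, 1 ≤ i → C ((a.coeff i) ^ K) * (C (c ^ K) * f ^ K) = 0 := by
    intro i hi
    by_cases hdeg : a.natDegree < i
    · rw [coeff_eq_zero_of_natDegree_lt hdeg, zero_pow (by omega), C_0, zero_mul]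
    · have h1 : s (i - 1) ≤ ∑ i ∈ Finset.range a.natDegree, s i :=
        Finset.single_le_sum (f := s) (fun _ _ => Nat.zero_le _)
          (Finset.mem_range.2 (by omega))
      have h2 := hs (i - 1)
      rw [Nat.sub_add_cancel hi] at h2
      have h3 := pow_eq_zero_of_le (show s (i - 1) ≤ K by omega) h2
      rw [← h3, mul_pow, C_mul, mul_pow, ← C_pow, ← C_pow]
      ring
  -- multiples of the coefficients of `c^K f^K`
  have hz : ∀ j : ℕ, ∀ g : A[X], ∃ N : ℕ, ∀ m : ℕ, N ≤ m →
      C (c ^ K * (f ^ K).coeff j) * (g * f ^ m) ∈ LinearMap.range (Dop c a) := by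
    intro j g
    set z := c ^ K * (f ^ K).coeff j with hzdef
    set π := Ideal.Quotient.mk (annI A z) with hπ
    have hnil : ∀ i, 1 ≤ i → IsNilpotent ((a.map π).coeff i) := by
      intro i hi
      refine ⟨K, ?_⟩
      rw [coeff_map, ← map_pow, Ideal.Quotient.eq_zero_iff_mem, mem_annI]
      have h1 := congrArg (fun P => coeff P j) (hKs i hi)
      simp only [coeff_C_mul, coeff_zero] at h1
      rw [hzdef]
      linear_combination h1
    have hhyp : ∀ m : ℕ, 1 ≤ m → ∃ u, Dop (π c) (a.map π) u = (f.map π) ^ m := by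
      intro m hm
      obtain ⟨u, hu⟩ := h m hm
      exact ⟨u.map π, by rw [← Dop_map, hu, Polynomial.map_pow]⟩
    obtain ⟨K', hK'⟩ := main_nilp (A ⧸ annI A z) (π c) (a.map π) (f.map π) hnil hhyp
    obtain ⟨N, hN⟩ := drop_c (A ⧸ annI A z) (π c) (a.map π) (f.map π) (u₁.map π)
      (by rw [← Dop_map, hu₁]) K' hK' (g.map π)
    refine ⟨N, fun m hm => ?_⟩
    obtain ⟨w, hw⟩ := hN m hm
    obtain ⟨u, rfl⟩ := Polynomial.map_surjective π Ideal.Quotient.mk_surjective w
    refine ⟨C z * u, ?_⟩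
    rw [← Dop_map, ← Polynomial.map_pow, ← Polynomial.map_mul] at hw
    have h2 : C z * (Dop c a u - g * f ^ m) = 0 := by
      ext l
      rw [coeff_C_mul, coeff_zero, ← mem_annI, ← Ideal.Quotient.eq_zero_iff_mem, ← hπ,
        coeff_sub, map_sub, ← coeff_map, ← coeff_map, hw, sub_self]
    rw [← smul_eq_C_mul, map_smul, smul_eq_C_mul]
    linear_combination h2
  -- multiples of `c^K`
  refine drop_c A c a f u₁ hu₁ K ?_ g
  intro g
  choose N hN using fun j : ℕ => hz j (X ^ j * g)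
  refine ⟨∑ j ∈ Finset.range ((f ^ K).natDegree + 1), N j + K, fun m hm => ?_⟩
  obtain ⟨m', rfl⟩ : ∃ m', m = m' + K := ⟨m - K, by omega⟩
  have h1 : C (c ^ K) * (g * f ^ (m' + K)) = ∑ j ∈ Finset.range ((f ^ K).natDegree + 1),
      C (c ^ K * (f ^ K).coeff j) * (X ^ j * g * f ^ m') := by
    have h2 := (f ^ K).as_sum_range_C_mul_X_pow
    calc C (c ^ K) * (g * f ^ (m' + K)) = C (c ^ K) * g * f ^ m' * f ^ K := by
          rw [pow_add]; ring
      _ = C (c ^ K) * g * f ^ m' * ∑ j ∈ Finset.range ((f ^ K).natDegree + 1),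
          C ((f ^ K).coeff j) * X ^ j := by rw [← h2]
      _ = _ := by
          rw [Finset.mul_sum]
          refine Finset.sum_congr rfl fun j _ => ?_
          rw [C_mul]
          ring
  rw [h1]
  apply Submodule.sum_mem
  intro j hj
  have h3 : N j ≤ ∑ j ∈ Finset.range ((f ^ K).natDegree + 1), N j :=
    Finset.single_le_sum (f := N) (fun _ _ => Nat.zero_le _) hj
  exact hN j m' (by omega)

end Pool.Agent.H70IC
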